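import Mathlib

set_option autoImplicit false
open MeasureTheory ProbabilityTheory Filter Topology
open scoped NNReal ENNReal

namespace Pool.Agent.helper64.Anti

/-- lower bound for a polynomial at a real point far from the real parts of its roots -/
theorem poly_lower (P : Polynomial ℂ) (d : ℕ) (hd : P.natDegree ≤ d) (w : ℂ) (t : ℝ)
    (ε a : ℝ) (hε : 0 < ε) (ha : ‖(t : ℂ) - w‖ ≤ a) (hr : ∀ r ∈ P.roots, ε ≤ |t - r.re|) :
    ‖P.eval w‖ * (ε / (a + ε)) ^ d ≤ ‖P.eval (t : ℂ)‖ := by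
  have ha0 : 0 ≤ a := le_trans (norm_nonneg _) ha
  have hspl := IsAlgClosed.splits P
  rw [hspl.eval_eq_prod_roots, hspl.eval_eq_prod_roots, norm_mul, norm_mul]
  have hn : ∀ x : ℂ, ‖(P.roots.map (x - ·)).prod‖ = (P.roots.map (fun r => ‖x - r‖)).prod := by
    intro x
    have := map_multiset_prod (normHom (α := ℂ)) (P.roots.map (x - ·))
    simpa [Multiset.map_map, Function.comp_def] using this
  rw [hn, hn, mul_assoc]
  refine mul_le_mul_of_nonneg_left ?_ (norm_nonneg _)
  set c : ℝ := ε / (a + ε) with hc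
  have hc0 : 0 ≤ c := by positivity
  have hc1 : c ≤ 1 := by
    rw [hc, div_le_one (by positivity)]; linarith
  have h1 : (P.roots.map (fun r => ‖w - r‖)).prod * c ^ d
      ≤ (P.roots.map (fun r => ‖w - r‖)).prod * c ^ (Multiset.card P.roots) := by
    refine mul_le_mul_of_nonneg_left ?_ ?_
    · exact pow_le_pow_of_le_one hc0 hc1 ((Polynomial.card_roots' P).trans hd)
    · exact Multiset.prod_map_nonneg (fun r _ => norm_nonneg _)
  refine h1.trans ?_
  have h2 : (P.roots.map (fun r => ‖w - r‖)).prod * c ^ (Multiset.card P.roots)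
      = (P.roots.map (fun r => ‖w - r‖ * c)).prod := by
    rw [Multiset.prod_map_mul, Multiset.map_const', Multiset.prod_replicate]
  rw [h2]
  refine Multiset.prod_map_le_prod_map₀ _ _ (fun r _ => by positivity) (fun r hrr => ?_)
  have h3 : ‖w - r‖ ≤ a + ‖(t : ℂ) - r‖ := by
    have : w - r = ((t : ℂ) - r) - ((t : ℂ) - w) := by ring
    rw [this]
    refine (norm_sub_le _ _).trans ?_
    linarith
  have h4 : ε ≤ ‖(t : ℂ) - r‖ := by
    refine (hr r hrr).trans ?_
    have := Complex.abs_re_le_norm ((t : ℂ) - r)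
    simpa using this
  rw [hc, ← mul_div_assoc, div_le_iff₀ (by positivity)]
  nlinarith [mul_le_mul_of_nonneg_right h3 hε.le, mul_le_mul_of_nonneg_left h4 ha0]

/-- the set of reals close to the real part of a root -/
def bad (P : Polynomial ℂ) (ε : ℝ) : Set ℝ := ⋃ r ∈ P.roots.toFinset, Metric.ball r.re ε

theorem bad_measure (P : Polynomial ℂ) (d : ℕ) (hd : P.natDegree ≤ d) (ε : ℝ) (hε : 0 < ε) :
    volume (bad P ε) ≤ ENNReal.ofReal (2 * ε * d) := by
  unfold bad
  refine (measure_biUnion_finset_le _ _).trans ?_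
  have : ∀ r ∈ P.roots.toFinset, volume (Metric.ball r.re ε) ≤ ENNReal.ofReal (2 * ε) := by
    intro r _
    rw [Real.volume_ball]
  refine (Finset.sum_le_sum this).trans ?_
  rw [Finset.sum_const, nsmul_eq_mul, ENNReal.ofReal_mul (p := 2 * ε) (by positivity),
    ENNReal.ofReal_natCast, mul_comm]
  refine mul_le_mul_right ?_ _
  have : P.roots.toFinset.card ≤ d :=
    (Multiset.toFinset_card_le _).trans ((Polynomial.card_roots' P).trans hd)
  exact_mod_cast this

theorem not_mem_bad {P : Polynomial ℂ} {ε t : ℝ} (h : t ∉ bad P ε) :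
    ∀ r ∈ P.roots, ε ≤ |t - r.re| := by
  intro r hr
  by_contra hlt
  push Not at hlt
  apply h
  simp only [bad, Set.mem_iUnion, Metric.mem_ball, Multiset.mem_toFinset]
  exact ⟨r, hr, by rwa [Real.dist_eq]⟩

/-- a real point in `[0,1]` far from all roots -/
theorem exists_good (P : Polynomial ℂ) (d : ℕ) (hd : P.natDegree ≤ d) (hd1 : 1 ≤ d) :
    ∃ s ∈ Set.Icc (0:ℝ) 1, ∀ r ∈ P.roots, 1 / (4 * d : ℝ) ≤ |s - r.re| := by
  have hdpos : (0:ℝ) < d := by exact_mod_cast hd1
  have h1 := bad_measure P d hd (1 / (4 * d : ℝ)) (by positivity)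
  have h2 : (2 * (1 / (4 * d : ℝ)) * d) = 1/2 := by field_simp; norm_num
  rw [h2] at h1
  have h3 : ¬ (Set.Icc (0:ℝ) 1 ⊆ bad P (1 / (4 * d : ℝ))) := by
    intro hsub
    have h4 := (measure_mono hsub).trans h1
    rw [Real.volume_Icc] at h4
    have := (ENNReal.ofReal_le_ofReal_iff (by norm_num)).1 h4
    norm_num at this
  obtain ⟨s, hs, hsb⟩ := Set.not_subset.1 h3
  exact ⟨s, hs, not_mem_bad hsb⟩


/-- domination of product measures -/
theorem pi_le {κ : Type*} [Fintype κ] (μ ν : κ → Measure ℝ) [∀ k, IsFiniteMeasure (μ k)]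
    [∀ k, IsFiniteMeasure (ν k)] (c : κ → ℝ≥0) (h : ∀ k, μ k ≤ c k • ν k) :
    Measure.pi μ ≤ ((∏ k, c k : ℝ≥0)) • Measure.pi ν := by
  have h0 : Measure.pi (fun k => c k • ν k) = ((∏ k, c k : ℝ≥0)) • Measure.pi ν := by
    refine Measure.pi_eq (fun s _ => ?_)
    rw [Measure.smul_apply, Measure.pi_pi]
    simp only [Measure.smul_apply, ENNReal.smul_def, smul_eq_mul, Finset.prod_mul_distrib,
      ENNReal.ofNNReal_finsetProd]
  rw [← h0, Measure.le_iff]
  intro s hs
  have h2 : (Measure.pi μ).toOuterMeasure ≤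
      OuterMeasure.pi (fun k => (c k • ν k).toOuterMeasure) := by
    rw [OuterMeasure.le_pi]
    intro t _
    refine (Measure.pi_pi μ t).le.trans ?_
    exact Finset.prod_le_prod' (fun k _ => h k (t k))
  have h3 : Measure.pi (fun k => c k • ν k) s
      = OuterMeasure.pi (fun k => (c k • ν k).toOuterMeasure) s := by
    rw [Measure.pi_def]
    exact toMeasure_apply _ _ hs
  rw [h3]
  exact h2 s

/-- one dimensional comparison -/
theorem gauss_one (u b : ℝ) (hu : 0 ≤ u) :
    gaussianReal 0 1 ≤ Real.toNNReal ((1 + u) * Real.exp (u * b ^ 2 / 4)) •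
      (gaussianReal 0 1).map (fun x => (1 + u) * x + (-u) * b) := by
  have hv0 : (0:ℝ) ≤ (1 + u) ^ 2 := by positivity
  have h1 : (gaussianReal 0 1).map (fun x => (1 + u) * x + (-u) * b)
      = gaussianReal (-u * b) (Real.toNNReal ((1 + u) ^ 2)) := by
    have : (fun x : ℝ => (1 + u) * x + (-u) * b)
        = (fun x => x + (-u) * b) ∘ (fun x => (1 + u) * x) := rfl
    rw [this, ← Measure.map_map (by fun_prop) (by fun_prop), gaussianReal_map_const_mul,
      gaussianReal_map_add_const]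
    congr 1
    · ring
    · rw [mul_one]
      apply NNReal.eq
      rw [Real.coe_toNNReal _ hv0]
      rfl
  rw [h1]
  have hv : Real.toNNReal ((1 + u) ^ 2) ≠ 0 := by
    exact (Real.toNNReal_pos.2 (by positivity)).ne'
  rw [gaussianReal_of_var_ne_zero _ one_ne_zero, gaussianReal_of_var_ne_zero _ hv]
  rw [Measure.le_iff]
  intro s hs
  rw [Measure.smul_apply, ENNReal.smul_def, smul_eq_mul, withDensity_apply _ hs,
    withDensity_apply _ hs, ← lintegral_const_mul _ (measurable_gaussianPDF _ _)]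
  refine lintegral_mono (fun x => ?_)
  simp only [gaussianPDF]
  change _ ≤ ENNReal.ofReal _ * _
  rw [← ENNReal.ofReal_mul (by positivity)]
  refine ENNReal.ofReal_le_ofReal ?_
  simp only [gaussianPDFReal, sub_zero, NNReal.coe_one, mul_one, Real.coe_toNNReal _ hv0]
  have h5 : √(2 * Real.pi * (1 + u) ^ 2) = √(2 * Real.pi) * (1 + u) := by
    rw [Real.sqrt_mul (by positivity), Real.sqrt_sq (by positivity)]
  rw [h5, mul_inv]
  have hpi : 0 < √(2 * Real.pi) := by positivity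
  have h6 : (1 + u) * Real.exp (u * b ^ 2 / 4) * ((√(2 * Real.pi))⁻¹ * (1 + u)⁻¹ *
      Real.exp (-(x - -u * b) ^ 2 / (2 * (1 + u) ^ 2)))
      = (√(2 * Real.pi))⁻¹ * Real.exp (u * b ^ 2 / 4 + -(x - -u * b) ^ 2 / (2 * (1 + u) ^ 2)) := by
    rw [Real.exp_add]
    field_simp
  rw [h6]
  refine mul_le_mul_of_nonneg_left (Real.exp_le_exp.2 ?_) (by positivity)
  have h7 : u * b ^ 2 / 4 + -(x - -u * b) ^ 2 / (2 * (1 + u) ^ 2) - (-x ^ 2 / 2)
      = u * ((2 * (2 + u) * x ^ 2 - 4 * x * b + b ^ 2 * (1 + u ^ 2) ) / (4 * (1 + u) ^ 2)) := by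
    field_simp
    ring
  have h8 : 0 ≤ (2 * (2 + u) * x ^ 2 - 4 * x * b + b ^ 2 * (1 + u ^ 2) ) := by
    nlinarith [sq_nonneg (2 * x - b), sq_nonneg x, sq_nonneg (x - b), mul_nonneg hu (sq_nonneg x)]
  have h9 : 0 ≤ u * ((2 * (2 + u) * x ^ 2 - 4 * x * b + b ^ 2 * (1 + u ^ 2) )
      / (4 * (1 + u) ^ 2)) := by positivity
  linarith


theorem gauss_cmp {κ : Type*} [Fintype κ] (u : ℝ) (hu : 0 ≤ u) (b : κ → ℝ) (A : Set (κ → ℝ))
    (hA : MeasurableSet A) (hub : u * Fintype.card κ + u * (∑ k, b k ^ 2) / 4 ≤ 2) :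
    Measure.pi (fun _ : κ => gaussianReal 0 1) A ≤ ENNReal.ofReal (Real.exp 2) *
      Measure.pi (fun _ : κ => gaussianReal 0 1) {g | (fun k => (1 + u) * g k + (-u) * b k) ∈ A} := by
  have hmeas : ∀ k, Measurable (fun x : ℝ => (1 + u) * x + (-u) * b k) := fun k => by fun_prop
  have : ∀ k : κ, IsFiniteMeasure ((gaussianReal 0 1).map (fun x => (1 + u) * x + (-u) * b k)) :=
    fun k => inferInstance
  have h1 := pi_le (fun _ : κ => gaussianReal 0 1)
    (fun k => (gaussianReal 0 1).map (fun x => (1 + u) * x + (-u) * b k))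
    (fun k => Real.toNNReal ((1 + u) * Real.exp (u * (b k) ^ 2 / 4))) (fun k => gauss_one u (b k) hu)
  rw [← Measure.pi_map_pi (fun k => (hmeas k).aemeasurable)] at h1
  refine (h1 A).trans ?_
  rw [Measure.smul_apply, ENNReal.smul_def, smul_eq_mul, Measure.map_apply _ hA]
  swap
  · exact measurable_pi_lambda _ (fun k => (hmeas k).comp (measurable_pi_apply k))
  refine mul_le_mul_left ?_ _
  rw [← Real.toNNReal_prod_of_nonneg (fun k _ => by positivity)]
  change ENNReal.ofReal _ ≤ _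
  refine ENNReal.ofReal_le_ofReal ?_
  rw [Finset.prod_mul_distrib, Finset.prod_const, ← Real.exp_sum, ← Finset.sum_div,
    ← Finset.mul_sum, Finset.card_univ]
  have h2 : (1 + u) ^ Fintype.card κ ≤ Real.exp (u * Fintype.card κ) := by
    rw [mul_comm, Real.exp_nat_mul]
    refine pow_le_pow_left₀ (by positivity) ?_ _
    rw [add_comm]
    exact Real.add_one_le_exp u
  calc (1 + u) ^ Fintype.card κ * Real.exp (u * (∑ k, b k ^ 2) / 4)
      ≤ Real.exp (u * Fintype.card κ) * Real.exp (u * (∑ k, b k ^ 2) / 4) := by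
        gcongr
    _ = Real.exp (u * Fintype.card κ + u * (∑ k, b k ^ 2) / 4) := by rw [Real.exp_add]
    _ ≤ Real.exp 2 := Real.exp_le_exp.2 hub

/-- anticoncentration of a polynomial which is large at one complex point -/
theorem anticoncentration : ∃ C : ℝ, 0 < C ∧
    ∀ {κ : Type} [Fintype κ] (Q : (κ → ℂ) → ℂ) (d : ℕ) (_hd : 1 ≤ d)
      (_hQ : ∀ x y : κ → ℂ, ∃ P : Polynomial ℂ, P.natDegree ≤ d ∧
        ∀ t : ℂ, Q (x + t • y) = P.eval t)
      (_hQm : Continuous Q) (z : κ → ℂ) (_hz : Q z ≠ 0) (ρ : ℝ) (_hρ : ∑ k, ‖z k‖ ^ 2 ≤ ρ)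
      (_hρ0 : 1 ≤ ρ) (η : ℝ) (_hη : 0 < η) (_hη1 : η ≤ 1),
      (Measure.pi (fun _ : κ => gaussianReal 0 1))
        {x : κ → ℝ | ‖Q (fun k => (x k : ℂ))‖ ≤
          ‖Q z‖ * (η / (C * d ^ 2 * (Fintype.card κ + ρ))) ^ d}
        ≤ ENNReal.ofReal (C * η) := by
  refine ⟨100, by norm_num, ?_⟩
  intro κ _ Q d hd hQ hQm z hz ρ hρ hρ0 η hη hη1
  have hd0 : (0:ℝ) < d := by exact_mod_cast hd
  have hd1 : (1:ℝ) ≤ d := by exact_mod_cast hd
  set n : ℝ := (Fintype.card κ : ℝ) with hn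
  have hn0 : 0 ≤ n := by positivity
  set γ : Measure (κ → ℝ) := Measure.pi (fun _ : κ => gaussianReal 0 1) with hγ
  set θ : ℝ := ‖Q z‖ * (η / (100 * d ^ 2 * (n + ρ))) ^ d with hθ
  set Bad : Set (κ → ℝ) := {x : κ → ℝ | ‖Q (fun k => (x k : ℂ))‖ ≤ θ} with hBad
  have hcont : Continuous (fun x : κ → ℝ => ‖Q (fun k => (x k : ℂ))‖) := by
    refine (hQm.comp ?_).norm
    exact continuous_pi (fun k => Complex.continuous_ofReal.comp (continuous_apply k))
  have hBadm : MeasurableSet Bad := (isClosed_le hcont continuous_const).measurableSet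
  have hQz : 0 < ‖Q z‖ := norm_pos_iff.2 hz
  -- step (a): a real point
  obtain ⟨P, hPd, hP⟩ := hQ (fun k => ((z k).re : ℂ)) (fun k => ((z k).im : ℂ))
  obtain ⟨s, hs, hsr⟩ := exists_good P d hPd hd
  set b : κ → ℝ := fun k => (z k).re + s * (z k).im with hb
  have hPi : P.eval Complex.I = Q z := by
    rw [← hP]
    congr 1
    funext k
    simp only [Pi.add_apply, Pi.smul_apply, smul_eq_mul]
    rw [mul_comm]
    exact Complex.re_add_im (z k)
  have hPs : P.eval (s : ℂ) = Q (fun k => (b k : ℂ)) := by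
    rw [← hP]
    congr 1
    funext k
    simp [hb]
  have hQb : ‖Q z‖ * (1 / (8 * d)) ^ d ≤ ‖Q (fun k => (b k : ℂ))‖ := by
    have hsI : ‖(s : ℂ) - Complex.I‖ ≤ 3/2 := by
      have h1 : ‖(s : ℂ) - Complex.I‖ ^ 2 = s ^ 2 + 1 := by
        rw [← Complex.normSq_eq_norm_sq, Complex.normSq_apply]
        simp; ring
      have h2 : s ^ 2 ≤ 1 := by nlinarith [hs.1, hs.2]
      nlinarith [norm_nonneg ((s : ℂ) - Complex.I)]
    have h1 := poly_lower P d hPd Complex.I s (1 / (4 * d : ℝ)) (3/2) (by positivity) hsI hsr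
    rw [hPi, hPs] at h1
    refine le_trans ?_ h1
    have h4 : 1 / (4 * d : ℝ) ≤ 1 / 4 := by
      apply one_div_le_one_div_of_le <;> linarith
    have h6 : 1 / (8 * d : ℝ) ≤ 1 / (4 * d) / (3 / 2 + 1 / (4 * d)) := by
      rw [le_div_iff₀ (by positivity)]
      have h7 : 1 / (4 * d : ℝ) = 1 / (8 * d) * 2 := by field_simp; norm_num
      have h8 : (0:ℝ) < 1 / (8 * d) := by positivity
      calc 1 / (8 * d : ℝ) * (3 / 2 + 1 / (4 * d)) ≤ 1 / (8 * d : ℝ) * 2 :=
            mul_le_mul_of_nonneg_left (by linarith) h8.le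
        _ = 1 / (4 * d) := h7.symm
    gcongr
  have hb2 : ∑ k, b k ^ 2 ≤ 2 * ρ := by
    refine le_trans ?_ (mul_le_mul_of_nonneg_left hρ zero_le_two)
    rw [Finset.mul_sum]
    refine Finset.sum_le_sum (fun k _ => ?_)
    rw [← Complex.normSq_eq_norm_sq, Complex.normSq_apply]
    simp only [hb]
    have h2 : s ^ 2 ≤ 1 := by nlinarith [hs.1, hs.2]
    nlinarith [sq_nonneg (s * (z k).re - (z k).im), sq_nonneg ((z k).re), sq_nonneg ((z k).im),
      mul_nonneg (sub_nonneg.2 h2) (sq_nonneg ((z k).re)), mul_nonneg (sub_nonneg.2 h2) (sq_nonneg ((z k).im))]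
  -- step (b)
  set s0 : ℝ := 1 / (n + 2 * ρ) with hs0
  have hs0p : 0 < s0 := by positivity
  have hs0h : s0 ≤ 1/2 := by
    rw [hs0]; apply one_div_le_one_div_of_le <;> linarith
  set ε : ℝ := η * s0 / (2 * d) with hε
  have hεp : 0 < ε := by positivity
  have hεq : ε ≤ 1/4 := by
    rw [hε, div_le_iff₀ (by positivity)]
    nlinarith
  have hθlt : θ < ‖Q (fun k => (b k : ℂ))‖ * (ε / (3/2 + ε)) ^ d := by
    have h1 : η / (8 * d * (n + ρ)) ≤ ε / (3/2 + ε) := by
      have h2 : η / (8 * d * (n + ρ)) ≤ ε / 2 := by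
        rw [hε, hs0]
        have h3 : 1 / (2 * (n + ρ)) ≤ 1 / (n + 2 * ρ) := by
          apply one_div_le_one_div_of_le (by positivity); linarith
        calc η / (8 * d * (n + ρ)) = η * (1 / (2 * (n + ρ))) / (2 * d) / 2 := by
              field_simp; norm_num
          _ ≤ η * (1 / (n + 2 * ρ)) / (2 * d) / 2 := by gcongr
      refine h2.trans ?_
      apply div_le_div_of_nonneg_left hεp.le (by positivity); linarith
    have h5 : η / (100 * d ^ 2 * (n + ρ)) < 1 / (8 * d) * (η / (8 * d * (n + ρ))) := by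
      have h6 : 1 / (8 * d) * (η / (8 * d * (n + ρ))) = η / (64 * d ^ 2 * (n + ρ)) := by
        field_simp; norm_num
      rw [h6]
      apply div_lt_div_of_pos_left hη (by positivity)
      have : 0 < (d:ℝ) ^ 2 * (n + ρ) := by positivity
      nlinarith
    calc θ = ‖Q z‖ * (η / (100 * d ^ 2 * (n + ρ))) ^ d := rfl
      _ < ‖Q z‖ * (1 / (8 * d) * (η / (8 * d * (n + ρ)))) ^ d := by
          apply mul_lt_mul_of_pos_left _ hQz
          apply pow_lt_pow_left₀ h5 (by positivity) (by omega)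
      _ = (‖Q z‖ * (1 / (8 * d)) ^ d) * (η / (8 * d * (n + ρ))) ^ d := by
          rw [mul_pow]; ring
      _ ≤ ‖Q (fun k => (b k : ℂ))‖ * (ε / (3/2 + ε)) ^ d := by
          gcongr
  have hslice : ∀ g : κ → ℝ, volume {t : ℝ | t ∈ Set.Icc 0 s0 ∧
      (fun k => (1 + t) * g k + (-t) * b k) ∈ Bad} ≤ ENNReal.ofReal (η * s0) := by
    intro g
    obtain ⟨R, hRd, hR⟩ := hQ (fun k => (b k : ℂ)) (fun k => ((g k - b k : ℝ) : ℂ))
    have h0 : R.eval 0 = Q (fun k => (b k : ℂ)) := by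
      rw [← hR]; simp
    have hsub : {t : ℝ | t ∈ Set.Icc 0 s0 ∧ (fun k => (1 + t) * g k + (-t) * b k) ∈ Bad} ⊆
        (fun u => 1 + u) ⁻¹' (bad R ε) := by
      rintro u ⟨⟨hu0, hu1⟩, hu⟩
      by_contra hnb
      have h1 := not_mem_bad hnb
      have h2 : ‖((1 + u : ℝ) : ℂ) - 0‖ ≤ 3 / 2 := by
        rw [sub_zero, Complex.norm_real, Real.norm_eq_abs, abs_of_nonneg (by linarith)]
        linarith
      have h3 := poly_lower R d hRd 0 (1 + u) ε (3/2) hεp h2 h1
      rw [h0, ← hR] at h3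
      have h4 : ((fun k => (b k : ℂ)) + ((1 + u : ℝ) : ℂ) • (fun k => ((g k - b k : ℝ) : ℂ)))
          = fun k => (((1 + u) * g k + (-u) * b k : ℝ) : ℂ) := by
        funext k
        simp only [Pi.add_apply, Pi.smul_apply, smul_eq_mul]
        push_cast
        ring
      rw [h4] at h3
      have h5 : ‖Q (fun k => (((1 + u) * g k + (-u) * b k : ℝ) : ℂ))‖ ≤ θ := hu
      linarith
    refine (measure_mono hsub).trans ?_
    rw [measure_preimage_add]
    refine (bad_measure R d hRd ε hεp).trans (le_of_eq ?_)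
    congr 1
    rw [hε]; field_simp
  -- step (c), (d)
  set E : Set (ℝ × (κ → ℝ)) := {p | p.1 ∈ Set.Icc 0 s0 ∧
    (fun k => (1 + p.1) * p.2 k + (-p.1) * b k) ∈ Bad} with hE
  have hEm : MeasurableSet E := by
    refine (measurable_fst measurableSet_Icc).inter (?_ : MeasurableSet
      ((fun p : ℝ × (κ → ℝ) => (fun k => (1 + p.1) * p.2 k + (-p.1) * b k)) ⁻¹' Bad))
    have hm : Measurable (fun p : ℝ × (κ → ℝ) => (fun k => (1 + p.1) * p.2 k + (-p.1) * b k)) := by
      refine measurable_pi_lambda _ (fun k => ?_)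
      fun_prop
    exact hm hBadm
  have hγp : IsProbabilityMeasure γ := by rw [hγ]; infer_instance
  have hup : (volume.prod γ) E ≤ ENNReal.ofReal (η * s0) := by
    rw [Measure.prod_apply_symm hEm]
    calc ∫⁻ g, volume ((fun t => (t, g)) ⁻¹' E) ∂γ ≤ ∫⁻ g, ENNReal.ofReal (η * s0) ∂γ :=
          lintegral_mono (fun g => hslice g)
      _ = ENNReal.ofReal (η * s0) := by simp
  have hlow : ENNReal.ofReal s0 * γ Bad ≤ ENNReal.ofReal (Real.exp 2) * (volume.prod γ) E := by
    rw [Measure.prod_apply hEm, ← lintegral_const_mul' _ _ ENNReal.ofReal_ne_top]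
    calc ENNReal.ofReal s0 * γ Bad = ∫⁻ t in Set.Icc 0 s0, γ Bad := by
          rw [setLIntegral_const, Real.volume_Icc, sub_zero, mul_comm]
      _ ≤ ∫⁻ t in Set.Icc 0 s0, ENNReal.ofReal (Real.exp 2) * γ (Prod.mk t ⁻¹' E) := by
          refine setLIntegral_mono' measurableSet_Icc (fun t ht => ?_)
          have hub : t * Fintype.card κ + t * (∑ k, b k ^ 2) / 4 ≤ 2 := by
            have h1 : t * (n + 2 * ρ) ≤ 1 := by
              have := mul_le_mul_of_nonneg_right ht.2 (by positivity : 0 ≤ n + 2 * ρ)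
              rw [hs0, one_div, inv_mul_cancel₀ (by positivity)] at this
              exact this
            have h2 : t * (∑ k, b k ^ 2) ≤ t * (2 * ρ) := mul_le_mul_of_nonneg_left hb2 ht.1
            nlinarith [mul_nonneg ht.1 hn0, ht.1]
          have h3 := gauss_cmp t ht.1 b Bad hBadm hub
          refine h3.trans (mul_le_mul_right (measure_mono ?_) _)
          intro g hg
          exact ⟨ht, hg⟩
      _ ≤ ∫⁻ t, ENNReal.ofReal (Real.exp 2) * γ (Prod.mk t ⁻¹' E) :=
          setLIntegral_le_lintegral _ _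
  have hfin : ENNReal.ofReal s0 * γ Bad ≤ ENNReal.ofReal s0 * ENNReal.ofReal (100 * η) := by
    refine hlow.trans ((mul_le_mul_right hup _).trans ?_)
    rw [← ENNReal.ofReal_mul (by positivity), ← ENNReal.ofReal_mul (by positivity)]
    refine ENNReal.ofReal_le_ofReal ?_
    have he : Real.exp 2 ≤ 100 := by
      have h1 : Real.exp 1 < 2.7182818286 := Real.exp_one_lt_d9
      have h2 : Real.exp 2 = Real.exp 1 * Real.exp 1 := by rw [← Real.exp_add]; norm_num
      nlinarith [Real.exp_pos 1]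
    have : 0 < η * s0 := by positivity
    nlinarith
  exact (ENNReal.mul_le_mul_iff_right (by simpa using hs0p) ENNReal.ofReal_ne_top).1 hfin

end Pool.Agent.helper64.Anti
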