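import Mathlib

/-!
# Finsler metrics on manifolds: basic definitions
-/

open scoped Manifold ContDiff ENNReal
open Set MeasureTheory MulAction

noncomputable section

namespace Pool.Agent.H64

section Defs

variable {E : Type*} [NormedAddCommGroup E] [NormedSpace ℝ E]
  {H : Type*} [TopologicalSpace H] (I : ModelWithCorners ℝ E H)
  (M : Type*) [TopologicalSpace M] [ChartedSpace H M] [IsManifold I ∞ M]

/-- A Finsler function (Finsler metric) on the smooth manifold `M`: a continuous function
`F : TM → [0, ∞)`, smooth off the zero section, positively homogeneous of degree one on every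
tangent space, and strongly convex: the fibrewise Hessian of `F ^ 2` is positive definite off the
zero section. -/
structure FinslerMetric where
  /-- The function on the tangent bundle. -/
  F : TangentBundle I M → ℝ
  nonneg : ∀ v, 0 ≤ F v
  cont : Continuous F
  smooth : ContMDiffOn I.tangent 𝓘(ℝ, ℝ) ∞ F {v | v.2 ≠ 0}
  homog : ∀ (x : M) (v : TangentSpace I x) (c : ℝ), 0 < c → F ⟨x, c • v⟩ = c * F ⟨x, v⟩
  strongly_convex : ∀ (x : M) (v w : E), v ≠ 0 → w ≠ 0 →
    0 < fderiv ℝ (fderiv ℝ (fun y : E => F ⟨x, y⟩ ^ 2)) v w w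

variable {M}

/-- A curve `c : ℝ → M` is piecewise smooth on `[a, b]` if this interval can be divided into
finitely many closed intervals on each of which `c` is smooth (up to the endpoints). -/
inductive PiecewiseSmooth (c : ℝ → M) : ℝ → ℝ → Prop
  | smooth {a b : ℝ} : a ≤ b → ContMDiffOn 𝓘(ℝ, ℝ) I ∞ c (Icc a b) → PiecewiseSmooth c a b
  | trans {a b d : ℝ} : PiecewiseSmooth c a b → PiecewiseSmooth c b d → PiecewiseSmooth c a d

variable {I}

namespace FinslerMetric

/-- The `F`-length of the curve `c` restricted to `[a, b]`. -/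
def length (F : FinslerMetric I M) (c : ℝ → M) (a b : ℝ) : ℝ≥0∞ :=
  ∫⁻ t in Icc a b, ENNReal.ofReal (F.F ⟨c t, mfderiv 𝓘(ℝ, ℝ) I c t (1 : ℝ)⟩)

/-- The (in general non symmetric) distance of a Finsler metric: the infimum of the `F`-lengths
of piecewise smooth curves from `x` to `y`. -/
def dist (F : FinslerMetric I M) (x y : M) : ℝ≥0∞ :=
  ⨅ (c : ℝ → M) (_ : PiecewiseSmooth I c 0 1) (_ : c 0 = x) (_ : c 1 = y), F.length c 0 1

/-- `φ : M → M` is an isometry of `(M, F)`: a diffeomorphism whose tangent map preserves `F`. -/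
def IsIsometry (F : FinslerMetric I M) (φ : M → M) : Prop :=
  ∃ Φ : M ≃ₘ^∞⟮I, I⟯ M, (∀ x, Φ x = φ x) ∧
    ∀ v : TangentBundle I M, F.F (tangentMap I I Φ v) = F.F v

/-- `(M, F)` is homogeneous: its isometries act transitively. -/
def IsHomogeneous (F : FinslerMetric I M) : Prop :=
  ∀ x y : M, ∃ φ : M → M, F.IsIsometry φ ∧ φ x = y

/-- `φ` has constant displacement: `x ↦ dist x (φ x)` is constant. -/
def HasConstantDisplacement (F : FinslerMetric I M) (φ : M → M) : Prop :=
  ∀ x y : M, F.dist x (φ x) = F.dist y (φ y)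

/-- Let the group `Γ` act freely and properly discontinuously on `M`. The Finsler metric `F'` on
the orbit space `Γ \ M` is the one induced by `F`: the projection `π : M → Γ \ M` is a local
diffeomorphism, and `F' ∘ Tπ = F`. In other words, `π` is the Finsler covering
`(M, F) → Γ \ (M, F)`. -/
def IsInducedOnQuotient [T2Space M] [LocallyCompactSpace M]
    {Γ : Type*} [Group Γ] [MulAction Γ M]
    [ProperlyDiscontinuousSMul Γ M] [ContinuousConstSMul Γ M] [IsCancelSMul Γ M]
    [IsManifold I ∞ (orbitRel.Quotient Γ M)]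
    (F : FinslerMetric I M) (F' : FinslerMetric I (orbitRel.Quotient Γ M)) : Prop :=
  IsLocalDiffeomorph I I ∞ (fun x : M => (Quotient.mk (orbitRel Γ M) x : orbitRel.Quotient Γ M)) ∧
    ∀ v : TangentBundle I M,
      F'.F (tangentMap I I
        (fun x : M => (Quotient.mk (orbitRel Γ M) x : orbitRel.Quotient Γ M)) v) = F.F v

end FinslerMetric

end Defs

end Pool.Agent.H64
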