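import Pool.Agent.helper64.FinslerDefs

/-!
# Quotients of manifolds by free properly discontinuous smooth actions, descent of Finsler metrics,
and lifts of isometries
-/

open scoped Manifold ContDiff ENNReal Topology
open Set MeasureTheory MulAction

noncomputable section

namespace Pool.Agent.H64

section Quot

/-- The projection onto the orbit space. -/
abbrev proj (G M : Type*) [Group G] [MulAction G M] : M → orbitRel.Quotient G M :=
  Quotient.mk (orbitRel G M)

section Top

variable {G M : Type*} [TopologicalSpace M] [Group G] [MulAction G M]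
  [ProperlyDiscontinuousSMul G M] [ContinuousConstSMul G M] [IsCancelSMul G M]
  [T2Space M] [LocallyCompactSpace M]

variable (G M) in
theorem proj_isCoveringMap : IsCoveringMap (proj G M) :=
  isQuotientCoveringMap_quotientMk_of_properlyDiscontinuousSMul.isCoveringMap

variable (G M) in
theorem proj_isLocalHomeomorph : IsLocalHomeomorph (proj G M) :=
  (proj_isCoveringMap G M).isLocalHomeomorph

omit [TopologicalSpace M] [ProperlyDiscontinuousSMul G M] [ContinuousConstSMul G M]
  [IsCancelSMul G M] [T2Space M] [LocallyCompactSpace M] in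
variable (G M) in
theorem proj_surjective : Function.Surjective (proj G M) := Quotient.mk_surjective

omit [TopologicalSpace M] [ProperlyDiscontinuousSMul G M] [ContinuousConstSMul G M]
  [IsCancelSMul G M] [T2Space M] [LocallyCompactSpace M] in
theorem proj_eq_iff {x y : M} : proj G M x = proj G M y ↔ ∃ g : G, g • y = x := by
  rw [Quotient.eq]
  rfl

variable (G) in
/-- The local sections of the projection. -/
abbrev sec (m : M) : OpenPartialHomeomorph (orbitRel.Quotient G M) M :=
  (proj_isLocalHomeomorph G M).localInverseAt m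

theorem proj_sec {m : M} {q : orbitRel.Quotient G M} (hq : q ∈ (sec G m).source) :
    proj G M (sec G m q) = q :=
  (proj_isLocalHomeomorph G M).apply_localInverseAt_of_mem hq

theorem sec_proj_eventuallyEq {m z : M} (hz : proj G M z ∈ (sec G m).source) :
    ∃ g : G, (fun y => sec G m (proj G M y)) =ᶠ[𝓝 z] (fun y => g • y) := by
  obtain ⟨g, hg⟩ := proj_eq_iff.1 (proj_sec hz)
  refine ⟨g, ?_⟩
  have hcont : ContinuousAt (fun y : M => g • y) z := (continuous_const_smul g).continuousAt
  have htgt : (sec G m).target ∈ 𝓝 (g • z) := by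
    rw [hg]
    exact (sec G m).open_target.mem_nhds ((sec G m).map_source hz)
  have hsrc : ∀ᶠ y in 𝓝 z, proj G M y ∈ (sec G m).source :=
    ((proj_isLocalHomeomorph G M).continuous.continuousAt).eventually_mem
      ((sec G m).open_source.mem_nhds hz)
  filter_upwards [hcont.eventually_mem htgt, hsrc] with y hy1 hy2
  apply (proj_isLocalHomeomorph G M).injOn_localInverseAt_target (x := m)
    ((sec G m).map_source hy2) hy1
  rw [(proj_isLocalHomeomorph G M).apply_localInverseAt_of_mem hy2]
  exact (proj_eq_iff.2 ⟨g⁻¹, by simp⟩)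

end Top

variable {E : Type*} [NormedAddCommGroup E] [NormedSpace ℝ E]
  {H : Type*} [TopologicalSpace H] {I : ModelWithCorners ℝ E H}
  {G M : Type*} [TopologicalSpace M] [ChartedSpace H M] [Group G] [MulAction G M]
  [ProperlyDiscontinuousSMul G M] [ContinuousConstSMul G M] [IsCancelSMul G M]
  [T2Space M] [LocallyCompactSpace M]

/-- The group `G` acts on `M` by smooth maps. -/
def SmoothAct {E : Type*} [NormedAddCommGroup E] [NormedSpace ℝ E]
    {H : Type*} [TopologicalSpace H] (I : ModelWithCorners ℝ E H)
    (G M : Type*) [TopologicalSpace M] [ChartedSpace H M] [Group G] [MulAction G M] : Prop :=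
  ∀ g : G, ContMDiff I I ∞ (fun x : M => g • x)

theorem sec_proj_contMDiffAt (hG : SmoothAct I G M) {m z : M}
    (hz : proj G M z ∈ (sec G m).source) :
    ContMDiffAt I I ∞ (fun y => sec G m (proj G M y)) z := by
  obtain ⟨g, hg⟩ := sec_proj_eventuallyEq hz
  exact (hG g).contMDiffAt.congr_of_eventuallyEq hg

theorem quot_chartAt (q : orbitRel.Quotient G M) : ∃ m : M, proj G M m = q ∧
    chartAt H q = (sec G m).trans (chartAt H m) :=
  ⟨_, (proj_surjective G M).hasRightInverse.choose_spec q, rfl⟩

theorem quot_atlas (e : OpenPartialHomeomorph (orbitRel.Quotient G M) H)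
    (he : e ∈ atlas H (orbitRel.Quotient G M)) :
    ∃ m : M, e = (sec G m).trans (chartAt H m) := by
  obtain ⟨q, rfl⟩ := he
  exact ⟨_, rfl⟩

theorem quot_isManifold [IsManifold I ∞ M] (hG : SmoothAct I G M) :
    IsManifold I ∞ (orbitRel.Quotient G M) := by
  apply isManifold_of_contDiffOn
  intro e e' he he'
  obtain ⟨m, rfl⟩ := quot_atlas e he
  obtain ⟨m', rfl⟩ := quot_atlas e' he'
  rintro y ⟨hy1, hy2⟩
  have hIy : I (I.symm y) = y := I.right_inv hy2
  simp only [mem_preimage, OpenPartialHomeomorph.trans_source,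
    OpenPartialHomeomorph.trans_symm_eq_symm_trans_symm, OpenPartialHomeomorph.symm_source,
    OpenPartialHomeomorph.coe_trans, mem_inter_iff, Function.comp_apply,
    IsLocalHomeomorph.localInverseAt_symm] at hy1
  obtain ⟨⟨h1, h2⟩, h3, h4⟩ := hy1
  set z : M := (chartAt H m).symm (I.symm y) with hz
  have hzs : z ∈ (chartAt H m).source := (chartAt H m).map_target h1
  have key := (contMDiffAt_iff_of_mem_source (I := I) (I' := I) hzs h4).1
    (sec_proj_contMDiffAt hG h3)
  have hy : extChartAt I m z = y := by
    simp only [extChartAt, OpenPartialHomeomorph.extend_coe, Function.comp_apply, hz]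
    rw [(chartAt H m).right_inv h1, hIy]
  rw [hy] at key
  refine (key.2.mono inter_subset_right).congr_of_eventuallyEq ?_ ?_
  · filter_upwards with x
    simp [extChartAt]
  · simp [extChartAt]

theorem proj_contMDiff [IsManifold I ∞ M] (hG : SmoothAct I G M) :
    ContMDiff I I ∞ (proj G M) := by
  intro z
  rw [contMDiffAt_iff_target]
  refine ⟨(proj_isLocalHomeomorph G M).continuous.continuousAt, ?_⟩
  obtain ⟨m, hm, hch⟩ := quot_chartAt (H := H) (proj G M z)
  have hsrc : proj G M z ∈ (sec G m).source := by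
    rw [← hm]; exact (proj_isLocalHomeomorph G M).apply_self_mem_localInverseAt_source
  have hval : sec G m (proj G M z) = m := by
    rw [← hm]; exact (proj_isLocalHomeomorph G M).localInverseAt_apply_self
  have heq : extChartAt I (proj G M z) ∘ proj G M =
      extChartAt I m ∘ fun y => sec G m (proj G M y) := by
    ext y
    simp [extChartAt, hch]
  rw [heq]
  refine ContMDiffAt.comp z ?_ (sec_proj_contMDiffAt hG hsrc)
  rw [hval]
  exact contMDiffAt_extChartAt

theorem sec_contMDiffOn [IsManifold I ∞ M] (hG : SmoothAct I G M) (m : M) :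
    ContMDiffOn I I ∞ (sec G m) (sec G m).source := by
  intro q hq
  apply ContMDiffAt.contMDiffWithinAt
  obtain ⟨m₁, hm, hch⟩ := quot_chartAt (H := H) q
  rw [contMDiffAt_iff_source]
  have hval : sec G m₁ q = m₁ := by
    rw [← hm]; exact (proj_isLocalHomeomorph G M).localInverseAt_apply_self
  have heq : sec G m ∘ (extChartAt I q).symm =
      (fun y => sec G m (proj G M y)) ∘ (extChartAt I m₁).symm := by
    ext y
    simp [extChartAt, hch]
  have hpt : extChartAt I q q = extChartAt I m₁ m₁ := by
    simp [extChartAt, hch, hval]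
  rw [heq, hpt]
  refine contMDiffAt_iff_source.1 (sec_proj_contMDiffAt hG ?_)
  rw [hm]; exact hq

theorem proj_isLocalDiffeomorph [IsManifold I ∞ M] (hG : SmoothAct I G M) :
    IsLocalDiffeomorph I I ∞ (proj G M) := by
  intro z
  refine ⟨⟨(sec G z).symm.toPartialEquiv, (sec G z).open_target, (sec G z).open_source, ?_, ?_⟩,
    ?_, ?_⟩
  · exact ((proj_contMDiff hG).contMDiffOn).congr fun x _ => by
      change (sec G z).symm x = _
      simp
  · exact sec_contMDiffOn hG z
  · exact (proj_isLocalHomeomorph G M).self_mem_localInverseAt_target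
  · intro x _
    change _ = (sec G z).symm x
    simp

end Quot

section Descend

variable {E : Type*} [NormedAddCommGroup E] [NormedSpace ℝ E]
  {H : Type*} [TopologicalSpace H] {I : ModelWithCorners ℝ E H}
  {M : Type*} [TopologicalSpace M] [ChartedSpace H M] [IsManifold I ∞ M]
  {N : Type*} [TopologicalSpace N] [ChartedSpace H N] [IsManifold I ∞ N]

/-- Second derivative of a composition with a linear isomorphism. -/
theorem fderiv_fderiv_comp_equiv (f : E → ℝ) (L : E ≃L[ℝ] E) (v w : E) :
    fderiv ℝ (fderiv ℝ (f ∘ L)) v w w = fderiv ℝ (fderiv ℝ f) (L v) (L w) (L w) := by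
  have h1 : fderiv ℝ (f ∘ L) = fun x => (fderiv ℝ f (L x)).comp (L : E →L[ℝ] E) := by
    ext1 x
    exact L.comp_right_fderiv
  let C : (E →L[ℝ] ℝ) ≃L[ℝ] (E →L[ℝ] ℝ) :=
    ContinuousLinearEquiv.arrowCongr L.symm (ContinuousLinearEquiv.refl ℝ ℝ)
  have h2 : (fun x => (fderiv ℝ f (L x)).comp (L : E →L[ℝ] E)) = C ∘ ((fderiv ℝ f) ∘ L) := by
    ext x y
    simp [C]
  rw [h1, h2, C.comp_fderiv, L.comp_right_fderiv]
  simp [C]

variable {π : M → N}

theorem tangentMap_surjective (hπ : IsLocalDiffeomorph I I ∞ π) (hs : Function.Surjective π)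
    (w : TangentBundle I N) : ∃ v : TangentBundle I M, tangentMap I I π v = w := by
  obtain ⟨x, a⟩ := w
  obtain ⟨m, rfl⟩ := hs x
  refine ⟨⟨m, ((hπ m).mfderivToContinuousLinearEquiv (by simp)).symm a⟩, ?_⟩
  simp only [tangentMap]
  congr 1
  rw [← (hπ m).mfderivToContinuousLinearEquiv_coe (by simp)]
  exact ((hπ m).mfderivToContinuousLinearEquiv (by simp)).apply_symm_apply a

theorem tb_mk_eq {x y : N} (h : x = y) (a b : E) (hab : a = b) :
    (⟨x, a⟩ : TangentBundle I N) = ⟨y, b⟩ := by
  subst h; subst hab; rfl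

theorem tangentMap_localInverse (hπ : IsLocalDiffeomorph I I ∞ π) (m : M)
    {w : TangentBundle I N} (hw : w.1 ∈ (hπ m).localInverse.source) :
    tangentMap I I π (tangentMap I I (hπ m).localInverse w) = w := by
  have hσ : MDifferentiableAt I I (hπ m).localInverse w.1 :=
    (hπ m).localInverse.mdifferentiableAt (by simp) hw
  have hπd : MDifferentiableAt I I π ((hπ m).localInverse w.1) :=
    (hπ _).mdifferentiableAt (by simp)
  rw [← tangentMap_comp_at w hπd hσ]
  have hev : π ∘ (hπ m).localInverse =ᶠ[𝓝 w.1] id :=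
    Filter.eventuallyEq_of_mem ((hπ m).localInverse.open_source.mem_nhds hw)
      (hπ m).localInverse_eqOn_right
  obtain ⟨x, a⟩ := w
  refine tb_mk_eq ?_ _ _ ?_
  · exact (hπ m).localInverse_right_inv hw
  · have := hev.mfderiv_eq (I := I) (I' := I)
    change (mfderiv I I (π ∘ (hπ m).localInverse) x) a = a
    rw [this, mfderiv_id]
    rfl

/-- The push-forward of a function on the tangent bundle. -/
def descendFun (F : TangentBundle I M → ℝ) (hπ : IsLocalDiffeomorph I I ∞ π)
    (hs : Function.Surjective π) (w : TangentBundle I N) : ℝ :=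
  F (tangentMap_surjective hπ hs w).choose

variable {F : TangentBundle I M → ℝ} 

theorem descendFun_tangentMap (hπ : IsLocalDiffeomorph I I ∞ π) (hs : Function.Surjective π)
    (hinv : ∀ v w : TangentBundle I M, tangentMap I I π v = tangentMap I I π w → F v = F w)
    (v : TangentBundle I M) : descendFun F hπ hs (tangentMap I I π v) = F v :=
  hinv _ _ (tangentMap_surjective hπ hs _).choose_spec

theorem descendFun_eq (hπ : IsLocalDiffeomorph I I ∞ π) (hs : Function.Surjective π)
    (hinv : ∀ v w : TangentBundle I M, tangentMap I I π v = tangentMap I I π w → F v = F w)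
    (m : M) {w : TangentBundle I N} (hw : w.1 ∈ (hπ m).localInverse.source) :
    descendFun F hπ hs w = F (tangentMap I I (hπ m).localInverse w) := by
  conv_lhs => rw [← tangentMap_localInverse hπ m hw]
  exact descendFun_tangentMap hπ hs hinv _

theorem contMDiffOn_tangentMap_localInverse (hπ : IsLocalDiffeomorph I I ∞ π) (m : M) :
    ContMDiffOn I.tangent I.tangent ∞ (tangentMap I I (hπ m).localInverse)
      {w : TangentBundle I N | w.1 ∈ (hπ m).localInverse.source} := by
  have ho : IsOpen (hπ m).localInverse.source := (hπ m).localInverse.open_source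
  have h1 := (hπ m).localInverse_contMDiffOn.contMDiffOn_tangentMapWithin (m := ∞) (by simp)
    ho.uniqueMDiffOn
  refine h1.congr ?_
  intro w hw
  rw [tangentMapWithin_eq_tangentMap (ho.uniqueMDiffOn _ hw)]
  exact (hπ m).localInverse.mdifferentiableAt (by simp) hw

theorem isOpen_source_tb (hπ : IsLocalDiffeomorph I I ∞ π) (m : M) :
    IsOpen {w : TangentBundle I N | w.1 ∈ (hπ m).localInverse.source} :=
  (hπ m).localInverse.open_source.preimage
    (FiberBundle.continuous_proj E (TangentSpace I : N → Type _))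

/-- A Finsler metric invariant in the appropriate sense descends along a surjective local
diffeomorphism. -/
def FinslerMetric.descend (F : FinslerMetric I M) (hπ : IsLocalDiffeomorph I I ∞ π)
    (hs : Function.Surjective π)
    (hinv : ∀ v w : TangentBundle I M, tangentMap I I π v = tangentMap I I π w → F.F v = F.F w) :
    FinslerMetric I N where
  F := descendFun F.F hπ hs
  nonneg v := F.nonneg _
  cont := by
    rw [continuous_iff_continuousAt]
    intro w
    obtain ⟨m, hm⟩ := hs w.1
    have hw : w.1 ∈ (hπ m).localInverse.source := by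
      rw [← hm]; exact (hπ m).localInverse_mem_source
    have hmem : {w : TangentBundle I N | w.1 ∈ (hπ m).localInverse.source} ∈ 𝓝 w :=
      (isOpen_source_tb hπ m).mem_nhds hw
    have h1 : ContinuousAt (fun w => F.F (tangentMap I I (hπ m).localInverse w)) w :=
      F.cont.continuousAt.comp
        ((contMDiffOn_tangentMap_localInverse hπ m).continuousOn.continuousAt hmem)
    refine h1.congr ?_
    filter_upwards [hmem] with u hu
    exact (descendFun_eq hπ hs hinv m hu).symm
  smooth := by
    intro w hw0
    obtain ⟨m, hm⟩ := hs w.1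
    have hw : w.1 ∈ (hπ m).localInverse.source := by
      rw [← hm]; exact (hπ m).localInverse_mem_source
    have hmem : {w : TangentBundle I N | w.1 ∈ (hπ m).localInverse.source} ∈ 𝓝 w :=
      (isOpen_source_tb hπ m).mem_nhds hw
    have hmaps : ∀ u : TangentBundle I N, u.1 ∈ (hπ m).localInverse.source → u.2 ≠ 0 →
        (tangentMap I I (hπ m).localInverse u).2 ≠ 0 := by
      intro u hu hu0 h0
      have h2 := tangentMap_localInverse hπ m hu
      apply hu0
      have h3 : (tangentMap I I π (tangentMap I I (hπ m).localInverse u)).2 = 0 := by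
        simp only [tangentMap] at h0 ⊢
        rw [h0]
        exact ContinuousLinearMap.map_zero _
      rw [h2] at h3
      exact h3
    have h1 : ContMDiffWithinAt I.tangent 𝓘(ℝ, ℝ) ∞
        (fun w => F.F (tangentMap I I (hπ m).localInverse w))
        ({w : TangentBundle I N | w.1 ∈ (hπ m).localInverse.source} ∩ {v | v.2 ≠ 0}) w := by
      refine ContMDiffWithinAt.comp w (F.smooth _ (hmaps w hw hw0))
        (((contMDiffOn_tangentMap_localInverse hπ m) w hw).mono inter_subset_left) ?_
      rintro u ⟨hu, hu0⟩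
      exact hmaps u hu hu0
    have h2 : ContMDiffWithinAt I.tangent 𝓘(ℝ, ℝ) ∞ (descendFun F.F hπ hs)
        ({w : TangentBundle I N | w.1 ∈ (hπ m).localInverse.source} ∩ {v | v.2 ≠ 0}) w := by
      refine h1.congr ?_ ?_
      · rintro u ⟨hu, _⟩
        exact (descendFun_eq hπ hs hinv m hu)
      · exact (descendFun_eq hπ hs hinv m hw)
    rw [inter_comm] at h2
    exact (contMDiffWithinAt_inter hmem).1 h2
  homog := by
    intro x v c hc
    obtain ⟨m, rfl⟩ := hs x
    have hx : π m ∈ (hπ m).localInverse.source := (hπ m).localInverse_mem_source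
    rw [descendFun_eq hπ hs hinv m (w := ⟨π m, c • v⟩) hx,
      descendFun_eq hπ hs hinv m (w := ⟨π m, v⟩) hx]
    simp only [tangentMap]
    rw [map_smul]
    exact F.homog _ _ c hc
  strongly_convex := by
    intro x v w hv hw
    obtain ⟨m, rfl⟩ := hs x
    let L : E ≃L[ℝ] E := ((hπ m).mfderivToContinuousLinearEquiv (by simp)).symm
    have hL : (fun y : E => descendFun F.F hπ hs ⟨π m, y⟩ ^ 2) =
        (fun y : E => F.F ⟨m, y⟩ ^ 2) ∘ L := by
      ext y
      simp only [Function.comp_apply]
      congr 1
      rw [← descendFun_tangentMap hπ hs hinv]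
      congr 1
      refine tb_mk_eq rfl _ _ ?_
      change y = mfderiv I I π m (L y)
      rw [← (hπ m).mfderivToContinuousLinearEquiv_coe (by simp)]
      exact (((hπ m).mfderivToContinuousLinearEquiv (by simp)).apply_symm_apply y).symm
    rw [hL, fderiv_fderiv_comp_equiv]
    exact F.strongly_convex m _ _ (by simpa using hv) (by simpa using hw)

end Descend

section Lift

variable {E : Type*} [NormedAddCommGroup E] [NormedSpace ℝ E]
  {H : Type*} [TopologicalSpace H] {I : ModelWithCorners ℝ E H}
  {M : Type*} [TopologicalSpace M] [ChartedSpace H M] [IsManifold I ∞ M]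
  {N : Type*} [TopologicalSpace N] [ChartedSpace H N] [IsManifold I ∞ N]
  {π : M → N}

theorem exists_lift_isometry [SimplyConnectedSpace M] [LocallyPathConnectedSpace M]
    (hcov : IsCoveringMap π) (hπ : IsLocalDiffeomorph I I ∞ π)
    (F : FinslerMetric I M) (F' : FinslerMetric I N)
    (hF : ∀ v, F'.F (tangentMap I I π v) = F.F v)
    (Φ : N ≃ₘ^∞⟮I, I⟯ N) (hΦ : ∀ w, F'.F (tangentMap I I Φ w) = F'.F w)
    (m₀ m₁ : M) (h : Φ (π m₀) = π m₁) :
    ∃ φ : M → M, ContMDiff I I ∞ φ ∧ Function.Injective φ ∧ φ m₀ = m₁ ∧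
      (∀ x, π (φ x) = Φ (π x)) ∧ ∀ v, F.F (tangentMap I I φ v) = F.F v := by
  obtain ⟨φ, ⟨hφ0, hφ⟩, -⟩ := hcov.existsUnique_continuousMap_lifts
    (⟨Φ ∘ π, Φ.continuous.comp hcov.continuous⟩ : C(M, N)) m₀ m₁ (by simp [h])
  obtain ⟨ψ, ⟨hψ0, hψ⟩, -⟩ := hcov.existsUnique_continuousMap_lifts
    (⟨Φ.symm ∘ π, Φ.symm.continuous.comp hcov.continuous⟩ : C(M, N)) m₁ m₀ (by simp [← h])
  have hφx : ∀ x, π (φ x) = Φ (π x) := fun x => congrFun hφ x
  have hψx : ∀ x, π (ψ x) = Φ.symm (π x) := fun x => congrFun hψ x
  have hid : (ψ ∘ φ : M → M) = id := by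
    apply hcov.eq_of_comp_eq (ψ.continuous.comp φ.continuous) continuous_id ?_ m₀ (by simp [hφ0, hψ0])
    ext x
    simp [hψx, hφx]
  have hinj : Function.Injective φ := by
    apply Function.LeftInverse.injective (g := ψ)
    intro x
    exact congrFun hid x
  have hsm : ContMDiff I I ∞ φ := by
    intro x
    have hx : π (φ x) ∈ (hπ (φ x)).localInverse.source := (hπ (φ x)).localInverse_mem_source
    have hev : φ =ᶠ[𝓝 x] fun y => (hπ (φ x)).localInverse (Φ (π y)) := by
      have : ∀ᶠ y in 𝓝 x, φ y ∈ (hπ (φ x)).localInverse.target :=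
        φ.continuous.continuousAt.eventually_mem
          ((hπ (φ x)).localInverse.open_target.mem_nhds (hπ (φ x)).localInverse_mem_target)
      filter_upwards [this] with y hy
      rw [← hφx, (hπ (φ x)).localInverse_left_inv hy]
    refine ContMDiffAt.congr_of_eventuallyEq ?_ hev
    have h1 : ContMDiffAt I I ∞ (hπ (φ x)).localInverse (Φ (π x)) := by
      rw [← hφx]; exact (hπ (φ x)).localInverse_contMDiffAt
    exact h1.comp x (Φ.contMDiff.contMDiffAt.comp x hπ.contMDiff.contMDiffAt)
  refine ⟨φ, hsm, hinj, hφ0, hφx, ?_⟩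
  intro v
  have hφd : MDifferentiable I I φ := hsm.mdifferentiable (by simp)
  have hπd : MDifferentiable I I π := hπ.contMDiff.mdifferentiable (by simp)
  have hΦd : MDifferentiable I I Φ := Φ.contMDiff.mdifferentiable (by simp)
  rw [← hF, ← hF v, ← hΦ (tangentMap I I π v)]
  congr 1
  have h1 : tangentMap I I (π ∘ φ) v = tangentMap I I π (tangentMap I I φ v) := by
    rw [tangentMap_comp hπd hφd]; rfl
  have h2 : tangentMap I I (Φ ∘ π) v = tangentMap I I Φ (tangentMap I I π v) := by
    rw [tangentMap_comp hΦd hπd]; rfl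
  rw [← h1, ← h2]
  have : π ∘ φ = Φ ∘ π := hφ
  rw [this]

end Lift

end Pool.Agent.H64
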