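import Pool.Agent.helper64.FinslerDefs

open scoped Manifold ContDiff ENNReal Topology
open Set MeasureTheory

noncomputable section

namespace Pool.Agent.H64

/-- The model space `ℝ³`. -/
abbrev V : Type := ℝ × ℝ × ℝ

/-- The quartic form `|v|⁴ + (v₁ cos θ + v₂ sin θ)² v₃²` on `ℝ³`. -/
def quartic (θ : ℝ) (v : V) : ℝ :=
  (v.1 ^ 2 + v.2.1 ^ 2 + v.2.2 ^ 2) ^ 2
    + (v.1 * Real.cos θ + v.2.1 * Real.sin θ) ^ 2 * v.2.2 ^ 2

theorem quartic_nonneg (θ : ℝ) (v : V) : 0 ≤ quartic θ v := by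
  unfold quartic; positivity

theorem quartic_pos (θ : ℝ) {v : V} (hv : v ≠ 0) : 0 < quartic θ v := by
  unfold quartic
  have : 0 < v.1 ^ 2 + v.2.1 ^ 2 + v.2.2 ^ 2 := by
    by_contra h
    push Not at h
    apply hv
    have h1 := sq_nonneg v.1
    have h2 := sq_nonneg v.2.1
    have h3 := sq_nonneg v.2.2
    have e1 : v.1 = 0 := by nlinarith
    have e2 : v.2.1 = 0 := by nlinarith
    have e3 : v.2.2 = 0 := by nlinarith
    ext <;> simp [e1, e2, e3]
  positivity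

theorem quartic_smul (θ c : ℝ) (v : V) : quartic θ (c • v) = c ^ 4 * quartic θ v := by
  unfold quartic
  simp only [Prod.smul_fst, Prod.smul_snd, smul_eq_mul]
  ring

theorem quartic_contDiff : ContDiff ℝ ∞ (fun p : V × V => quartic p.1.2.2 p.2) := by
  unfold quartic
  fun_prop

/-- General formula: second derivative along lines. -/
theorem fderiv_fderiv_apply_line {E : Type*} [NormedAddCommGroup E] [NormedSpace ℝ E]
    {f : E → ℝ} {v : E} (hf : ContDiffAt ℝ 2 f v) (w : E) :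
    HasDerivAt (fun t : ℝ => fderiv ℝ f (v + t • w) w) (fderiv ℝ (fderiv ℝ f) v w w) 0 := by
  have h1 : DifferentiableAt ℝ (fderiv ℝ f) v := by
    have := hf.fderiv_right (m := 1) (by norm_num)
    exact this.differentiableAt (by simp)
  have hline : HasDerivAt (fun t : ℝ => v + t • w) w 0 := by
    simpa using ((hasDerivAt_id (0:ℝ)).smul_const w).const_add v
  have h2 : HasFDerivAt (fderiv ℝ f) (fderiv ℝ (fderiv ℝ f) v) (v + (0:ℝ) • w) := by
    simpa using h1.hasFDerivAt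
  have h3 := h2.comp_hasDerivAt (0:ℝ) hline
  have h4 : HasDerivAt (fun t : ℝ => (fderiv ℝ f (v + t • w)) w)
      ((fderiv ℝ (fderiv ℝ f) v w) w) 0 := by
    have := h3.clm_apply (hasDerivAt_const (0:ℝ) w)
    simpa using this
  exact h4

theorem quartic_line (θ : ℝ) (v w : V) (t : ℝ) :
    quartic θ (v + t • w) = quartic θ v
      + t * (4 * (v.1 ^ 2 + v.2.1 ^ 2 + v.2.2 ^ 2) * (v.1 * w.1 + v.2.1 * w.2.1 + v.2.2 * w.2.2)
        + 2 * ((v.1 * Real.cos θ + v.2.1 * Real.sin θ) * v.2.2)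
          * ((w.1 * Real.cos θ + w.2.1 * Real.sin θ) * v.2.2
            + (v.1 * Real.cos θ + v.2.1 * Real.sin θ) * w.2.2))
      + t ^ 2 * (2 * (v.1 ^ 2 + v.2.1 ^ 2 + v.2.2 ^ 2) * (w.1 ^ 2 + w.2.1 ^ 2 + w.2.2 ^ 2)
        + 4 * (v.1 * w.1 + v.2.1 * w.2.1 + v.2.2 * w.2.2) ^ 2
        + ((w.1 * Real.cos θ + w.2.1 * Real.sin θ) * v.2.2
            + (v.1 * Real.cos θ + v.2.1 * Real.sin θ) * w.2.2) ^ 2
        + 2 * ((v.1 * Real.cos θ + v.2.1 * Real.sin θ) * v.2.2)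
          * ((w.1 * Real.cos θ + w.2.1 * Real.sin θ) * w.2.2))
      + t ^ 3 * (4 * (w.1 ^ 2 + w.2.1 ^ 2 + w.2.2 ^ 2) *
          (v.1 * w.1 + v.2.1 * w.2.1 + v.2.2 * w.2.2)
        + 2 * ((w.1 * Real.cos θ + w.2.1 * Real.sin θ) * w.2.2)
          * ((w.1 * Real.cos θ + w.2.1 * Real.sin θ) * v.2.2
            + (v.1 * Real.cos θ + v.2.1 * Real.sin θ) * w.2.2))
      + t ^ 4 * quartic θ w := by
  unfold quartic
  simp only [Prod.fst_add, Prod.snd_add, Prod.smul_fst, Prod.smul_snd, smul_eq_mul]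
  ring

/-- The key polynomial inequality behind strong convexity. -/
theorem key_ineq (a b c x y z C S : ℝ) (hCS : C ^ 2 + S ^ 2 = 1)
    (hv : 0 < a ^ 2 + b ^ 2 + c ^ 2) (hw : 0 < x ^ 2 + y ^ 2 + z ^ 2) :
    0 < 4 * ((a ^ 2 + b ^ 2 + c ^ 2) ^ 2 + (a * C + b * S) ^ 2 * c ^ 2) *
      (2 * (a ^ 2 + b ^ 2 + c ^ 2) * (x ^ 2 + y ^ 2 + z ^ 2)
        + 4 * (a * x + b * y + c * z) ^ 2
        + ((x * C + y * S) * c + (a * C + b * S) * z) ^ 2
        + 2 * ((a * C + b * S) * c) * ((x * C + y * S) * z))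
      - (4 * (a ^ 2 + b ^ 2 + c ^ 2) * (a * x + b * y + c * z)
        + 2 * ((a * C + b * S) * c) * ((x * C + y * S) * c + (a * C + b * S) * z)) ^ 2 := by
  set X := a * C + b * S with hX
  set U := x * C + y * S with hU
  set R := a ^ 2 + b ^ 2 + c ^ 2 with hR
  set W := x ^ 2 + y ^ 2 + z ^ 2 with hW
  set m := a * x + b * y + c * z with hm
  have hX2 : X ^ 2 + c ^ 2 ≤ R := by
    have : (a * C + b * S) ^ 2 ≤ (a ^ 2 + b ^ 2) * (C ^ 2 + S ^ 2) := by
      nlinarith [sq_nonneg (a * S - b * C)]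
    rw [hCS] at this
    rw [hX, hR]; linarith
  have hU2 : U ^ 2 + z ^ 2 ≤ W := by
    have : (x * C + y * S) ^ 2 ≤ (x ^ 2 + y ^ 2) * (C ^ 2 + S ^ 2) := by
      nlinarith [sq_nonneg (x * S - y * C)]
    rw [hCS] at this
    rw [hU, hW]; linarith
  have hc1 : |X * c| ≤ R / 2 := by
    rw [abs_le]; constructor <;> nlinarith [sq_nonneg (X + c), sq_nonneg (X - c)]
  have hd1 : |U * z| ≤ W / 2 := by
    rw [abs_le]; constructor <;> nlinarith [sq_nonneg (U + z), sq_nonneg (U - z)]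
  have hid : 4 * (R ^ 2 + X ^ 2 * c ^ 2) *
      (2 * R * W + 4 * m ^ 2 + (U * c + X * z) ^ 2 + 2 * (X * c) * (U * z))
      - (4 * R * m + 2 * (X * c) * (U * c + X * z)) ^ 2
      = 4 * (R * (U * c + X * z) - 2 * (X * c) * m) ^ 2
        + 8 * (R ^ 3 * W + (X * c) * (U * z) * (R ^ 2 + (X * c) ^ 2) + (X * c) ^ 2 * R * W) := by
    ring
  rw [hid]
  have hcd : |(X * c) * (U * z)| ≤ R * W / 4 := by
    rw [abs_mul]
    calc |X * c| * |U * z| ≤ (R / 2) * (W / 2) := by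
          apply mul_le_mul hc1 hd1 (abs_nonneg _) (by positivity)
      _ = R * W / 4 := by ring
  have hc2 : (X * c) ^ 2 ≤ R ^ 2 / 4 := by
    have := sq_le_sq' (by linarith [neg_abs_le (X * c), abs_nonneg (X*c)] : -(R/2) ≤ |X * c|) hc1
    rw [sq_abs] at this
    linarith [this, (by ring : (R / 2) ^ 2 = R ^ 2 / 4)]
  have hlow : -(R * W / 4 * (R ^ 2 + R ^ 2 / 4)) ≤
      (X * c) * (U * z) * (R ^ 2 + (X * c) ^ 2) := by
    have h1 : |(X * c) * (U * z) * (R ^ 2 + (X * c) ^ 2)| ≤ R * W / 4 * (R ^ 2 + R ^ 2 / 4) := by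
      rw [abs_mul, abs_of_nonneg (by positivity : 0 ≤ R ^ 2 + (X * c) ^ 2)]
      apply mul_le_mul hcd (by linarith) (by positivity) (by positivity)
    linarith [neg_abs_le ((X * c) * (U * z) * (R ^ 2 + (X * c) ^ 2))]
  have hpos : 0 < R ^ 3 * W := by positivity
  have hA : 0 ≤ 4 * (R * (U * c + X * z) - 2 * (X * c) * m) ^ 2 := by positivity
  have hB : 0 ≤ (X * c) ^ 2 * R * W := by positivity
  have hC : R * W / 4 * (R ^ 2 + R ^ 2 / 4) = 5 / 16 * (R ^ 3 * W) := by ring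
  rw [hC] at hlow
  linarith

theorem quartic_contDiff' (θ : ℝ) : ContDiff ℝ ∞ (quartic θ) := by
  unfold quartic
  fun_prop

/-- Strong convexity. -/
theorem sqrt_quartic_convex (θ : ℝ) {v w : V} (hv : v ≠ 0) (hw : w ≠ 0) :
    0 < fderiv ℝ (fderiv ℝ (fun y : V => √(quartic θ y))) v w w := by
  have hcd : ∀ u : V, u ≠ 0 → ContDiffAt ℝ ∞ (fun y : V => √(quartic θ y)) u := fun u hu =>
    ((quartic_contDiff' θ).contDiffAt).sqrt (quartic_pos θ hu).ne'
  have hD := fderiv_fderiv_apply_line ((hcd v hv).of_le (by norm_cast)) w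
  set D := fderiv ℝ (fderiv ℝ (fun y : V => √(quartic θ y))) v w w with hDdef
  -- the polynomial along the line
  obtain ⟨A0, hA0⟩ : ∃ A0, A0 = quartic θ v := ⟨_, rfl⟩
  obtain ⟨A1, hA1⟩ : ∃ A1, A1 = (4 * (v.1 ^ 2 + v.2.1 ^ 2 + v.2.2 ^ 2) *
        (v.1 * w.1 + v.2.1 * w.2.1 + v.2.2 * w.2.2)
        + 2 * ((v.1 * Real.cos θ + v.2.1 * Real.sin θ) * v.2.2)
          * ((w.1 * Real.cos θ + w.2.1 * Real.sin θ) * v.2.2
            + (v.1 * Real.cos θ + v.2.1 * Real.sin θ) * w.2.2)) := ⟨_, rfl⟩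
  obtain ⟨A2, hA2⟩ : ∃ A2, A2 = (2 * (v.1 ^ 2 + v.2.1 ^ 2 + v.2.2 ^ 2) *
        (w.1 ^ 2 + w.2.1 ^ 2 + w.2.2 ^ 2)
        + 4 * (v.1 * w.1 + v.2.1 * w.2.1 + v.2.2 * w.2.2) ^ 2
        + ((w.1 * Real.cos θ + w.2.1 * Real.sin θ) * v.2.2
            + (v.1 * Real.cos θ + v.2.1 * Real.sin θ) * w.2.2) ^ 2
        + 2 * ((v.1 * Real.cos θ + v.2.1 * Real.sin θ) * v.2.2)
          * ((w.1 * Real.cos θ + w.2.1 * Real.sin θ) * w.2.2)) := ⟨_, rfl⟩
  obtain ⟨A3, A4, hq⟩ : ∃ A3 A4 : ℝ, ∀ t : ℝ, quartic θ (v + t • w) =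
      A0 + t * A1 + t ^ 2 * A2 + t ^ 3 * A3 + t ^ 4 * A4 :=
    ⟨_, _, fun t => by rw [quartic_line, hA0, hA1, hA2]⟩
  have hkey : 0 < 4 * A0 * A2 - A1 ^ 2 := by
    have := key_ineq v.1 v.2.1 v.2.2 w.1 w.2.1 w.2.2 (Real.cos θ) (Real.sin θ)
      (by rw [Real.cos_sq_add_sin_sq]) ?_ ?_
    · rw [hA0, hA1, hA2]
      unfold quartic
      exact this
    · by_contra h
      push Not at h
      apply hv
      have e1 : v.1 = 0 := by nlinarith [sq_nonneg v.1, sq_nonneg v.2.1, sq_nonneg v.2.2]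
      have e2 : v.2.1 = 0 := by nlinarith [sq_nonneg v.1, sq_nonneg v.2.1, sq_nonneg v.2.2]
      have e3 : v.2.2 = 0 := by nlinarith [sq_nonneg v.1, sq_nonneg v.2.1, sq_nonneg v.2.2]
      ext <;> simp [e1, e2, e3]
    · by_contra h
      push Not at h
      apply hw
      have e1 : w.1 = 0 := by nlinarith [sq_nonneg w.1, sq_nonneg w.2.1, sq_nonneg w.2.2]
      have e2 : w.2.1 = 0 := by nlinarith [sq_nonneg w.1, sq_nonneg w.2.1, sq_nonneg w.2.2]
      have e3 : w.2.2 = 0 := by nlinarith [sq_nonneg w.1, sq_nonneg w.2.1, sq_nonneg w.2.2]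
      ext <;> simp [e1, e2, e3]
  have hA0pos : 0 < A0 := by rw [hA0]; exact quartic_pos θ hv
  have hqd : ∀ t : ℝ, HasDerivAt (fun t : ℝ => A0 + t * A1 + t ^ 2 * A2 + t ^ 3 * A3 + t ^ 4 * A4)
      (A1 + 2 * t * A2 + 3 * t ^ 2 * A3 + 4 * t ^ 3 * A4) t := by
    intro t
    have h1 := (((((hasDerivAt_id t).mul_const A1).const_add A0).add
      ((hasDerivAt_pow 2 t).mul_const A2)).add ((hasDerivAt_pow 3 t).mul_const A3)).add
      ((hasDerivAt_pow 4 t).mul_const A4)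
    refine h1.congr_deriv ?_
    simp
    try ring
  have hline : ∀ t : ℝ, HasDerivAt (fun t : ℝ => v + t • w) w t := fun t => by
    simpa using ((hasDerivAt_id t).smul_const w).const_add v
  have hne : ∀ᶠ t : ℝ in 𝓝 0, v + t • w ≠ 0 := by
    have : ContinuousAt (fun t : ℝ => v + t • w) 0 := (hline 0).continuousAt
    exact this.eventually_ne (by simpa using hv)
  have hev : (fun t : ℝ => fderiv ℝ (fun y : V => √(quartic θ y)) (v + t • w) w) =ᶠ[𝓝 0]
      fun t => (A1 + 2 * t * A2 + 3 * t ^ 2 * A3 + 4 * t ^ 3 * A4) /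
        (2 * √(A0 + t * A1 + t ^ 2 * A2 + t ^ 3 * A3 + t ^ 4 * A4)) := by
    filter_upwards [hne] with t ht
    have h1 : HasDerivAt (fun s : ℝ => √(quartic θ (v + s • w)))
        (fderiv ℝ (fun y : V => √(quartic θ y)) (v + t • w) w) t := by
      have := ((hcd _ ht).differentiableAt (by simp)).hasFDerivAt.comp_hasDerivAt t (hline t)
      exact this
    have h2 : HasDerivAt (fun s : ℝ => √(quartic θ (v + s • w)))
        ((A1 + 2 * t * A2 + 3 * t ^ 2 * A3 + 4 * t ^ 3 * A4) /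
        (2 * √(A0 + t * A1 + t ^ 2 * A2 + t ^ 3 * A3 + t ^ 4 * A4))) t := by
      simp_rw [hq]
      apply (hqd t).sqrt
      rw [← hq]
      exact (quartic_pos θ ht).ne'
    exact h1.unique h2
  have h3 : HasDerivAt (fun t : ℝ => (A1 + 2 * t * A2 + 3 * t ^ 2 * A3 + 4 * t ^ 3 * A4) /
        (2 * √(A0 + t * A1 + t ^ 2 * A2 + t ^ 3 * A3 + t ^ 4 * A4))) D 0 :=
    hD.congr_of_eventuallyEq hev.symm
  have h4 : HasDerivAt (fun t : ℝ => (A1 + 2 * t * A2 + 3 * t ^ 2 * A3 + 4 * t ^ 3 * A4))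
      (2 * A2) 0 := by
    have h1 := ((((hasDerivAt_id (0:ℝ)).const_mul 2).mul_const A2).const_add A1).add
      (((hasDerivAt_pow 2 (0:ℝ)).const_mul 3).mul_const A3) |>.add
      (((hasDerivAt_pow 3 (0:ℝ)).const_mul 4).mul_const A4)
    refine h1.congr_deriv ?_
    simp
  have h5 : HasDerivAt (fun t : ℝ => 2 * √(A0 + t * A1 + t ^ 2 * A2 + t ^ 3 * A3 + t ^ 4 * A4))
      (A1 / √A0) 0 := by
    have h1 := ((hqd 0).sqrt (by simpa using hA0pos.ne')).const_mul 2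
    refine h1.congr_deriv ?_
    simp
    field_simp
  have hs0 : 0 < √A0 := Real.sqrt_pos.2 hA0pos
  have h6 := h4.div h5 (by simpa using hs0.ne')
  have h7 := h3.unique h6
  rw [h7]
  simp only [mul_zero, zero_mul, add_zero, ne_eq, OfNat.ofNat_ne_zero, not_false_eq_true, zero_pow]
  have hsq : √A0 * √A0 = A0 := Real.mul_self_sqrt hA0pos.le
  have hnum : 2 * A2 * (2 * √A0) - A1 * (A1 / √A0) = (4 * A0 * A2 - A1 ^ 2) / √A0 := by
    field_simp
    nlinarith [hsq]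
  rw [hnum]
  positivity


/-- The Finsler function `F((x,y,z); (a,b,c)) = (|v|⁴ + (a cos z + b sin z)² c²)^{1/4}`. -/
def quarticFun (p : TangentBundle 𝓘(ℝ, V) V) : ℝ := √(√(quartic (p.1.2.2 : ℝ) (p.2 : V)))

theorem contMDiff_pair :
    ContMDiff (𝓘(ℝ, V).tangent) 𝓘(ℝ, V × V) ∞
      (fun p : TangentBundle 𝓘(ℝ, V) V => ((p.1, (p.2 : V)) : V × V)) := by
  apply ContMDiff.prodMk_space
  · exact Bundle.contMDiff_proj (TangentSpace 𝓘(ℝ, V))
  · exact contMDiff_snd_tangentBundle_modelSpace V 𝓘(ℝ, V)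

theorem sqrt_sqrt_quartic_smul (θ : ℝ) {c : ℝ} (hc : 0 < c) (v : V) :
    √(√(quartic θ (c • v))) = c * √(√(quartic θ v)) := by
  rw [quartic_smul]
  rw [Real.sqrt_mul (by positivity), Real.sqrt_mul (by positivity)]
  congr 1
  rw [show c ^ 4 = (c ^ 2) ^ 2 by ring, Real.sqrt_sq (by positivity), Real.sqrt_sq hc.le]

/-- The Finsler metric on `ℝ³`. -/
def quarticMetric : FinslerMetric 𝓘(ℝ, V) V where
  F := quarticFun
  nonneg p := Real.sqrt_nonneg _
  cont := by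
    have h1 : Continuous (fun q : V × V => √(√(quartic q.1.2.2 q.2))) :=
      (quartic_contDiff.continuous.sqrt).sqrt
    exact h1.comp contMDiff_pair.continuous
  smooth := by
    intro p hp
    apply ContMDiffAt.contMDiffWithinAt
    have h1 : ContDiffAt ℝ ∞ (fun q : V × V => √(√(quartic q.1.2.2 q.2))) ((p.1, (p.2 : V)) : V × V) := by
      have hpos : 0 < quartic (p.1.2.2 : ℝ) (p.2 : V) := quartic_pos _ hp
      refine ((quartic_contDiff.contDiffAt).sqrt hpos.ne').sqrt ?_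
      exact (Real.sqrt_pos.2 hpos).ne'
    have h2 := h1.contMDiffAt
    exact ContMDiffAt.comp (I' := 𝓘(ℝ, V × V))
      (g := fun q : V × V => √(√(quartic q.1.2.2 q.2)))
      (f := fun p : TangentBundle 𝓘(ℝ, V) V => ((p.1, (p.2 : V)) : V × V)) p h2
      contMDiff_pair.contMDiffAt
  homog := by
    intro x v c hc
    exact sqrt_sqrt_quartic_smul _ hc v
  strongly_convex := by
    intro x v w hv hw
    have h : (fun y : V => quarticFun ⟨x, y⟩ ^ 2) = fun y : V => √(quartic x.2.2 y) := by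
      ext y
      simp only [quarticFun]
      rw [Real.sq_sqrt (Real.sqrt_nonneg _)]
    rw [h]
    exact sqrt_quartic_convex _ hv hw

end Pool.Agent.H64
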