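import Pool.Agent.helper64.FinslerLib
import Pool.Agent.helper64.Quartic

open scoped Manifold ContDiff ENNReal Topology
open Set MeasureTheory MulAction

noncomputable section

namespace Pool.Agent.H64

/-! ### The group of integer translations in the first coordinate -/

/-- The infinite cyclic group generated by the translation `v ↦ v + (1, 0, 0)` of `ℝ³`. -/
def Γ : Subgroup (Equiv.Perm V) := Subgroup.zpowers (Equiv.addRight ((1, 0, 0) : V))

theorem addRight_zpow_apply (n : ℤ) (v : V) :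
    ((Equiv.addRight ((1, 0, 0) : V)) ^ n) v = (v.1 + n, v.2.1, v.2.2) := by
  induction n using Int.induction_on generalizing v with
  | zero => ext <;> simp
  | succ n ih =>
    rw [zpow_add_one, Equiv.Perm.mul_apply, ih]
    ext <;> simp
    ring
  | pred n ih =>
    rw [zpow_sub_one, Equiv.Perm.mul_apply, ih]
    have : (Equiv.addRight ((1, 0, 0) : V))⁻¹ v = (v.1 - 1, v.2.1, v.2.2) := by
      rw [Equiv.Perm.inv_eq_iff_eq]
      ext <;> simp
    rw [this]
    ext <;> simp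
    ring

theorem Γ_smul (g : Γ) : ∃ n : ℤ, g = ⟨(Equiv.addRight ((1, 0, 0) : V)) ^ n, ⟨n, rfl⟩⟩ ∧
    ∀ v : V, g • v = (v.1 + n, v.2.1, v.2.2) := by
  obtain ⟨g, n, rfl⟩ := g
  refine ⟨n, rfl, fun v => ?_⟩
  exact addRight_zpow_apply n v

instance : ContinuousConstSMul Γ V where
  continuous_const_smul g := by
    obtain ⟨n, -, hn⟩ := Γ_smul g
    simp_rw [hn]
    fun_prop

instance : IsCancelSMul Γ V where
  right_cancel' g h v hgh := by
    obtain ⟨n, hg, hn⟩ := Γ_smul g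
    obtain ⟨m, hh, hm⟩ := Γ_smul h
    rw [hn, hm] at hgh
    have h1 : v.1 + (n : ℝ) = v.1 + m := congrArg Prod.fst hgh
    have : n = m := by exact_mod_cast add_left_cancel h1
    rw [hg, hh, this]

instance : ProperlyDiscontinuousSMul Γ V where
  finite_disjoint_inter_image := by
    intro K L hK hL
    obtain ⟨C, hC⟩ := (hK.image continuous_fst).isBounded.exists_norm_le
    obtain ⟨D, hD⟩ := (hL.image continuous_fst).isBounded.exists_norm_le
    have hfin : (Set.Icc (-⌈C + D⌉) ⌈C + D⌉ : Set ℤ).Finite := Set.finite_Icc _ _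
    refine (hfin.image fun n : ℤ =>
      (⟨(Equiv.addRight ((1, 0, 0) : V)) ^ n, ⟨n, rfl⟩⟩ : Γ)).subset ?_
    intro g hg
    obtain ⟨n, hgn, hn⟩ := Γ_smul g
    refine ⟨n, ?_, hgn.symm⟩
    obtain ⟨y, ⟨x, hx, hxy⟩, hy⟩ := hg
    have h1 : |x.1| ≤ C := by simpa using hC _ ⟨x, hx, rfl⟩
    have h2 : |y.1| ≤ D := by simpa using hD _ ⟨y, hy, rfl⟩
    have h3 : y.1 = x.1 + n := by rw [← hxy]; simp [hn]
    have h4 : |(n : ℝ)| ≤ C + D := by
      have : (n : ℝ) = y.1 - x.1 := by rw [h3]; ring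
      rw [this]
      calc |y.1 - x.1| ≤ |y.1| + |x.1| := abs_sub _ _
        _ ≤ C + D := by linarith
    have h5 := abs_le.1 h4
    constructor
    · have : (-(⌈C + D⌉ : ℝ)) ≤ n := by linarith [Int.le_ceil (C + D), h5.1]
      exact_mod_cast this
    · have : (n : ℝ) ≤ ⌈C + D⌉ := by linarith [Int.le_ceil (C + D), h5.2]
      exact_mod_cast this

theorem Γ_smoothAct : SmoothAct 𝓘(ℝ, V) Γ V := by
  intro g
  obtain ⟨n, -, hn⟩ := Γ_smul g
  simp_rw [hn]
  apply ContDiff.contMDiff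
  fun_prop

instance quot_manifold : IsManifold 𝓘(ℝ, V) ∞ (orbitRel.Quotient Γ V) :=
  quot_isManifold Γ_smoothAct

/-! ### Homogeneity -/

/-- The rotation by the angle `δ` of the first two coordinates. -/
def rotL (δ : ℝ) : V →ₗ[ℝ] V where
  toFun v := (v.1 * Real.cos δ - v.2.1 * Real.sin δ, v.1 * Real.sin δ + v.2.1 * Real.cos δ, v.2.2)
  map_add' v w := by
    ext <;> simp <;> ring
  map_smul' c v := by
    ext <;> simp <;> ring

theorem rotL_neg_rotL (δ : ℝ) (v : V) : rotL (-δ) (rotL δ v) = v := by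
  have h := Real.cos_sq_add_sin_sq δ
  ext
  · simp only [rotL, LinearMap.coe_mk, AddHom.coe_mk, Real.cos_neg, Real.sin_neg]
    linear_combination v.1 * h
  · simp only [rotL, LinearMap.coe_mk, AddHom.coe_mk, Real.cos_neg, Real.sin_neg]
    linear_combination v.2.1 * h
  · simp [rotL]

/-- The rotation by the angle `δ` of the first two coordinates, as a continuous linear
equivalence. -/
def rot (δ : ℝ) : V ≃L[ℝ] V :=
  (LinearEquiv.ofLinearMap (rotL δ) (rotL (-δ))
    (LinearMap.ext fun v => by simpa using rotL_neg_rotL (-δ) v)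
    (LinearMap.ext fun v => rotL_neg_rotL δ v)).toContinuousLinearEquiv

theorem rot_apply (δ : ℝ) (v : V) : rot δ v =
    (v.1 * Real.cos δ - v.2.1 * Real.sin δ, v.1 * Real.sin δ + v.2.1 * Real.cos δ, v.2.2) := rfl

theorem quartic_rot (θ δ : ℝ) (v : V) : quartic (θ + δ) (rot δ v) = quartic θ v := by
  have h := Real.cos_sq_add_sin_sq δ
  simp only [quartic, rot_apply, Real.cos_add, Real.sin_add]
  have h1 : (v.1 * Real.cos δ - v.2.1 * Real.sin δ) ^ 2 +
      (v.1 * Real.sin δ + v.2.1 * Real.cos δ) ^ 2 = v.1 ^ 2 + v.2.1 ^ 2 := by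
    linear_combination (v.1 ^ 2 + v.2.1 ^ 2) * h
  have h2 : (v.1 * Real.cos δ - v.2.1 * Real.sin δ) *
        (Real.cos θ * Real.cos δ - Real.sin θ * Real.sin δ) +
      (v.1 * Real.sin δ + v.2.1 * Real.cos δ) *
        (Real.sin θ * Real.cos δ + Real.cos θ * Real.sin δ) =
      v.1 * Real.cos θ + v.2.1 * Real.sin θ := by
    linear_combination (v.1 * Real.cos θ + v.2.1 * Real.sin θ) * h
  rw [h1, h2]

/-- The screw motion taking `p` to `q`. -/
def screw (p q : V) : V ≃ₘ^∞⟮𝓘(ℝ, V), 𝓘(ℝ, V)⟯ V where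
  toFun v := q + rot (q.2.2 - p.2.2) (v - p)
  invFun v := p + (rot (q.2.2 - p.2.2)).symm (v - q)
  left_inv v := by simp
  right_inv v := by simp
  contMDiff_toFun := by
    apply ContDiff.contMDiff
    exact contDiff_const.add ((rot _).contDiff.comp (contDiff_id.sub contDiff_const))
  contMDiff_invFun := by
    apply ContDiff.contMDiff
    exact contDiff_const.add ((rot _).symm.contDiff.comp (contDiff_id.sub contDiff_const))

theorem screw_isometry (p q : V) (v : TangentBundle 𝓘(ℝ, V) V) :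
    quarticMetric.F (tangentMap 𝓘(ℝ, V) 𝓘(ℝ, V) (screw p q) v) = quarticMetric.F v := by
  obtain ⟨x, a⟩ := v
  have hd : HasFDerivAt (screw p q : V → V) (rot (q.2.2 - p.2.2) : V →L[ℝ] V) x := by
    have h1 : HasFDerivAt (fun v : V => v - p) (ContinuousLinearMap.id ℝ V) x :=
      (hasFDerivAt_id x).sub_const p
    have h2 := ((rot (q.2.2 - p.2.2)).hasFDerivAt.comp x h1).const_add q
    rw [ContinuousLinearMap.comp_id] at h2
    exact h2
  have hm : mfderiv 𝓘(ℝ, V) 𝓘(ℝ, V) (screw p q) x = (rot (q.2.2 - p.2.2) : V →L[ℝ] V) := by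
    rw [mfderiv_eq_fderiv]; exact hd.fderiv
  change quarticFun ⟨screw p q x, mfderiv 𝓘(ℝ, V) 𝓘(ℝ, V) (screw p q) x a⟩ = quarticFun ⟨x, a⟩
  rw [hm]
  simp only [quarticFun]
  congr 2
  have : (screw p q x).2.2 = x.2.2 + (q.2.2 - p.2.2) := by
    change (q + rot (q.2.2 - p.2.2) (x - p)).2.2 = _
    simp only [Prod.snd_add, rot_apply, Prod.snd_sub]
    ring
  rw [this]
  exact quartic_rot _ _ _

theorem quarticMetric_isHomogeneous : quarticMetric.IsHomogeneous := by
  intro p q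
  refine ⟨screw p q, ⟨screw p q, fun _ => rfl, screw_isometry p q⟩, ?_⟩
  change q + rot (q.2.2 - p.2.2) (p - p) = q
  simp

theorem Γ_isometry (g : Γ) : quarticMetric.IsIsometry (fun v : V => g • v) := by
  obtain ⟨n, -, hn⟩ := Γ_smul g
  refine ⟨screw 0 (n, 0, 0), fun v => ?_, screw_isometry _ _⟩
  simp only [hn]
  change ((n, 0, 0) : V) + rot (((n, 0, 0) : V).2.2 - (0 : V).2.2) (v - 0) = _
  ext <;> simp [rot_apply, add_comm]

/-! ### Displacement -/

theorem quarticFun_horizontal (x : V) (r : ℝ) : quarticFun ⟨x, ((r, 0, 0) : V)⟩ = |r| := by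
  simp only [quarticFun, quartic]
  have : ((r ^ 2 + 0 ^ 2 + 0 ^ 2) ^ 2 +
      (r * Real.cos x.2.2 + 0 * Real.sin x.2.2) ^ 2 * 0 ^ 2 : ℝ) = (r ^ 2) ^ 2 := by ring
  rw [this, Real.sqrt_sq (by positivity), Real.sqrt_sq_eq_abs]

theorem quarticFun_neg (x v : V) : quarticFun ⟨x, ((-v : V))⟩ = quarticFun ⟨x, v⟩ := by
  simp only [quarticFun, quartic]
  congr 2
  simp only [Prod.fst_neg, Prod.snd_neg]
  ring

theorem norm_le_quarticFun (x v : V) : v.1 ^ 2 + v.2.1 ^ 2 + v.2.2 ^ 2 ≤ (quarticFun ⟨x, v⟩) ^ 2 := by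
  simp only [quarticFun]
  rw [Real.sq_sqrt (Real.sqrt_nonneg _)]
  apply Real.le_sqrt_of_sq_le
  unfold quartic
  have : 0 ≤ (v.1 * Real.cos x.2.2 + v.2.1 * Real.sin x.2.2) ^ 2 * v.2.2 ^ 2 := by positivity
  linarith

theorem abs_fst_le_quarticFun (x v : V) : |v.1| ≤ quarticFun ⟨x, v⟩ := by
  have h0 : 0 ≤ quarticFun ⟨x, v⟩ := Real.sqrt_nonneg _
  have := norm_le_quarticFun x v
  exact abs_le_of_sq_le_sq (by nlinarith [sq_nonneg v.2.1, sq_nonneg v.2.2]) h0

theorem le_length {c : ℝ → V} {a b : ℝ} (hc : PiecewiseSmooth 𝓘(ℝ, V) c a b) :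
    a ≤ b ∧ ENNReal.ofReal |(c b).1 - (c a).1| ≤ quarticMetric.length c a b := by
  induction hc with
  | smooth hab hc =>
    rename_i a b
    refine ⟨hab, ?_⟩
    have hc' : ContDiffOn ℝ ∞ c (Icc a b) := hc.contDiffOn
    have hx : ContDiffOn ℝ 1 (fun t => (c t).1) (Icc a b) :=
      (contDiff_fst.comp_contDiffOn hc').of_le (by norm_cast)
    have h1 := enorm_sub_le_lintegral_deriv_of_contDiffOn_Icc hx hab
    rw [← Real.enorm_eq_ofReal_abs]
    refine h1.trans ?_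
    unfold FinslerMetric.length
    apply lintegral_mono_ae
    rw [← restrict_Ioo_eq_restrict_Icc]
    filter_upwards [self_mem_ae_restrict measurableSet_Ioo] with t ht
    have hd : DifferentiableAt ℝ c t :=
      ((hc' t ⟨ht.1.le, ht.2.le⟩).contDiffAt (Icc_mem_nhds ht.1 ht.2)).differentiableAt (by simp)
    have h2 : deriv (fun t => (c t).1) t = (fderiv ℝ c t 1).1 := by
      have h3 := (hasFDerivAt_fst (𝕜 := ℝ) (p := c t)).comp_hasDerivAt t hd.hasDerivAt
      exact h3.deriv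
    rw [h2, Real.enorm_eq_ofReal_abs]
    apply ENNReal.ofReal_le_ofReal
    rw [mfderiv_eq_fderiv]
    exact abs_fst_le_quarticFun _ _
  | trans h1 h2 ih1 ih2 =>
    rename_i a b d
    obtain ⟨hab, ih1⟩ := ih1
    obtain ⟨hbd, ih2⟩ := ih2
    refine ⟨hab.trans hbd, ?_⟩
    have h3 : quarticMetric.length c a d =
        quarticMetric.length c a b + quarticMetric.length c b d := by
      unfold FinslerMetric.length
      rw [← restrict_Ioc_eq_restrict_Icc, ← restrict_Ioc_eq_restrict_Icc,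
        ← restrict_Ioc_eq_restrict_Icc, ← Ioc_union_Ioc_eq_Ioc hab hbd,
        lintegral_union measurableSet_Ioc (by simp)]
    rw [h3]
    refine le_trans ?_ (add_le_add ih1 ih2)
    rw [← ENNReal.ofReal_add (abs_nonneg _) (abs_nonneg _)]
    apply ENNReal.ofReal_le_ofReal
    have : (c d).1 - (c a).1 = ((c b).1 - (c a).1) + ((c d).1 - (c b).1) := by ring
    rw [this]
    exact abs_add_le _ _

theorem dist_translate (p : V) (r : ℝ) :
    quarticMetric.dist p (p.1 + r, p.2.1, p.2.2) = ENNReal.ofReal |r| := by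
  apply le_antisymm
  · have hsm : ContDiff ℝ ∞ (fun t : ℝ => p + t • ((r, 0, 0) : V)) := by fun_prop
    refine (iInf_le_of_le (fun t : ℝ => p + t • ((r, 0, 0) : V)) ?_)
    refine (iInf_le_of_le (.smooth zero_le_one hsm.contMDiff.contMDiffOn) ?_)
    refine (iInf_le_of_le (by simp) ?_)
    refine (iInf_le_of_le (by ext <;> simp) ?_)
    unfold FinslerMetric.length
    have : ∀ t : ℝ, mfderiv 𝓘(ℝ, ℝ) 𝓘(ℝ, V) (fun t : ℝ => p + t • ((r, 0, 0) : V)) t (1 : ℝ) =
        ((r, 0, 0) : V) := by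
      intro t
      rw [mfderiv_eq_fderiv]
      have h1 : HasDerivAt (fun t : ℝ => p + t • ((r, 0, 0) : V)) ((r, 0, 0) : V) t := by
        simpa using ((hasDerivAt_id t).smul_const ((r, 0, 0) : V)).const_add p
      exact h1.deriv
    simp_rw [this]
    change ∫⁻ t in Icc (0:ℝ) 1, ENNReal.ofReal (quarticFun ⟨_, ((r, 0, 0) : V)⟩) ≤ _
    simp_rw [quarticFun_horizontal]
    simp
  · refine le_iInf fun c => le_iInf fun hc => le_iInf fun h0 => le_iInf fun h1 => ?_
    have := (le_length hc).2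
    rw [h0, h1] at this
    simpa using this

theorem Γ_constantDisplacement (g : Γ) :
    quarticMetric.HasConstantDisplacement (fun v : V => g • v) := by
  obtain ⟨n, -, hn⟩ := Γ_smul g
  intro x y
  simp only [hn]
  rw [dist_translate, dist_translate]

/-! ### The quotient -/

theorem F_eq_of_tangentMap_proj_eq (v w : TangentBundle 𝓘(ℝ, V) V)
    (h : tangentMap 𝓘(ℝ, V) 𝓘(ℝ, V) (proj Γ V) v = tangentMap 𝓘(ℝ, V) 𝓘(ℝ, V) (proj Γ V) w) :
    quarticMetric.F v = quarticMetric.F w := by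
  obtain ⟨x, a⟩ := v
  obtain ⟨y, b⟩ := w
  have hbase : proj Γ V x = proj Γ V y := congrArg (fun p => p.1) h
  obtain ⟨g, hg⟩ := proj_eq_iff.1 hbase
  obtain ⟨Φ, hΦ, hF⟩ := Γ_isometry g
  have hπ := proj_isLocalDiffeomorph Γ_smoothAct
  have hπd : MDifferentiable 𝓘(ℝ, V) 𝓘(ℝ, V) (proj Γ V) :=
    hπ.contMDiff.mdifferentiable (by simp)
  have hΦd : MDifferentiable 𝓘(ℝ, V) 𝓘(ℝ, V) Φ := Φ.contMDiff.mdifferentiable (by simp)
  have hcomp : proj Γ V ∘ Φ = proj Γ V := by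
    ext z
    simp only [Function.comp_apply, hΦ]
    exact proj_eq_iff.2 ⟨g, rfl⟩
  have h1 : tangentMap 𝓘(ℝ, V) 𝓘(ℝ, V) (proj Γ V) (tangentMap 𝓘(ℝ, V) 𝓘(ℝ, V) Φ ⟨y, b⟩) =
      tangentMap 𝓘(ℝ, V) 𝓘(ℝ, V) (proj Γ V) ⟨y, b⟩ := by
    have := tangentMap_comp hπd hΦd
    rw [hcomp] at this
    exact (congrFun this ⟨y, b⟩).symm
  rw [← hF ⟨y, b⟩]
  have hx : Φ y = x := by rw [hΦ]; exact hg
  subst hx
  rw [← h1] at h
  have h2 : mfderiv 𝓘(ℝ, V) 𝓘(ℝ, V) (proj Γ V) (Φ y) a =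
      mfderiv 𝓘(ℝ, V) 𝓘(ℝ, V) (proj Γ V) (Φ y) (mfderiv 𝓘(ℝ, V) 𝓘(ℝ, V) Φ y b) := by
    simp only [tangentMap] at h
    exact eq_of_heq (Bundle.TotalSpace.mk.inj h).2
  have hinj : Function.Injective (mfderiv 𝓘(ℝ, V) 𝓘(ℝ, V) (proj Γ V) (Φ y)) := by
    rw [← (hπ (Φ y)).mfderivToContinuousLinearEquiv_coe (by simp)]
    exact ((hπ (Φ y)).mfderivToContinuousLinearEquiv (by simp)).injective
  have h3 := hinj h2
  rw [h3]
  rfl

/-- The induced Finsler metric on the quotient. -/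
def quotMetric : FinslerMetric 𝓘(ℝ, V) (orbitRel.Quotient Γ V) :=
  quarticMetric.descend (proj_isLocalDiffeomorph Γ_smoothAct) (proj_surjective Γ V)
    F_eq_of_tangentMap_proj_eq

theorem quotMetric_tangentMap (v : TangentBundle 𝓘(ℝ, V) V) :
    quotMetric.F (tangentMap 𝓘(ℝ, V) 𝓘(ℝ, V) (proj Γ V) v) = quarticMetric.F v :=
  descendFun_tangentMap (proj_isLocalDiffeomorph Γ_smoothAct) (proj_surjective Γ V)
    F_eq_of_tangentMap_proj_eq v

theorem no_linear {ε α β κ : ℝ} (hε : ε ^ 2 = 1)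
    (h : ∀ s : ℝ, ((ε + s * α) ^ 2 + (s * β) ^ 2 + (s * κ) ^ 2) ^ 2 + (s * β) ^ 2 * (s * κ) ^ 2 =
      (1 + s ^ 2) ^ 2 + s ^ 2) : False := by
  set K := α ^ 2 + β ^ 2 + κ ^ 2 with hK
  have e : ∀ s : ℝ, (1 + 2 * s * (ε * α) + s ^ 2 * K) ^ 2 + s ^ 4 * (β * κ) ^ 2 =
      (1 + s ^ 2) ^ 2 + s ^ 2 := by
    intro s
    rw [← h s]
    have : (ε + s * α) ^ 2 + (s * β) ^ 2 + (s * κ) ^ 2 = 1 + 2 * s * (ε * α) + s ^ 2 * K := by
      rw [hK]; linear_combination hε
    rw [this]; ring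
  have h1 := e 1
  have h2 := e (-1)
  have h3 := e 2
  have h4 := e (-2)
  have hK0 : 0 ≤ K := by positivity
  have hα : ε * α = 0 := by
    have : (ε * α) * (1 + K) = 0 := by nlinarith
    rcases mul_eq_zero.1 this with h | h
    · exact h
    · linarith
  rw [hα] at h1 h3
  nlinarith [sq_nonneg (β * κ)]

theorem quotMetric_not_isHomogeneous : ¬ quotMetric.IsHomogeneous := by
  intro hhom
  let q₀ : V := (0, 0, Real.pi / 2)
  obtain ⟨φ', ⟨Φ, hΦφ, hΦ⟩, hφ'⟩ := hhom (proj Γ V 0) (proj Γ V q₀)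
  obtain ⟨φ, hsm, hinj, h0, hπφ, hF⟩ := exists_lift_isometry (proj_isCoveringMap Γ V)
    (proj_isLocalDiffeomorph Γ_smoothAct) quarticMetric quotMetric quotMetric_tangentMap
    Φ hΦ 0 q₀ (by rw [hΦφ, hφ'])
  have hdiff : Differentiable ℝ φ := (hsm.contDiff).differentiable (by simp)
  -- the isometry property in terms of `fderiv`
  have hF' : ∀ x v : V, quarticFun ⟨φ x, fderiv ℝ φ x v⟩ = quarticFun ⟨x, v⟩ := by
    intro x v
    have := hF ⟨x, v⟩
    simp only [tangentMap, mfderiv_eq_fderiv] at this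
    exact this
  -- the image of the translate of the base point
  let w : V := (1, 0, 0)
  obtain ⟨k, hk0, hk⟩ : ∃ k : ℤ, k ≠ 0 ∧ φ w = (q₀.1 + k, q₀.2.1, q₀.2.2) := by
    have h1 : proj Γ V (φ w) = proj Γ V (φ 0) := by
      rw [hπφ, hπφ]
      congr 1
      refine proj_eq_iff.2 ⟨⟨(Equiv.addRight ((1, 0, 0) : V)) ^ (1:ℤ), ⟨1, rfl⟩⟩, ?_⟩
      change ((Equiv.addRight ((1, 0, 0) : V)) ^ (1:ℤ)) 0 = w
      rw [addRight_zpow_apply]
      simp [w]
    obtain ⟨g, hg⟩ := proj_eq_iff.1 h1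
    obtain ⟨n, -, hn⟩ := Γ_smul g
    rw [hn, h0] at hg
    refine ⟨n, ?_, hg.symm⟩
    rintro rfl
    have : φ w = φ 0 := by rw [h0, ← hg]; simp
    have := hinj this
    simp [w] at this
  -- the curve
  have hline : ∀ s : ℝ, HasDerivAt (fun s : ℝ => s • w) w s := fun s => by
    simpa using (hasDerivAt_id s).smul_const w
  have hc : ∀ s : ℝ, HasDerivAt (fun s : ℝ => φ (s • w)) (fderiv ℝ φ (s • w) w) s := fun s =>
    (hdiff (s • w)).hasFDerivAt.comp_hasDerivAt s (hline s)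
  have hx : ∀ s : ℝ, HasDerivAt (fun s : ℝ => (φ (s • w)).1) (fderiv ℝ φ (s • w) w).1 s := by
    intro s
    have h1 := (hasFDerivAt_fst (𝕜 := ℝ) (p := φ (s • w))).comp_hasDerivAt s (hc s)
    exact h1
  have hspeed : ∀ s : ℝ, quarticFun ⟨φ (s • w), fderiv ℝ φ (s • w) w⟩ = 1 := by
    intro s
    rw [hF']
    have := quarticFun_horizontal (s • w) 1
    simpa [w] using this
  have hx1 : ∀ s : ℝ, |(fderiv ℝ φ (s • w) w).1| ≤ 1 := fun s => by
    rw [← hspeed s]; exact abs_fst_le_quarticFun _ _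
  have hx01 : (φ ((1 : ℝ) • w)).1 - (φ ((0 : ℝ) • w)).1 = k := by
    rw [one_smul, zero_smul, hk, h0]; simp
  have hk1 : |(k : ℝ)| ≤ 1 := by
    have := Convex.norm_image_sub_le_of_norm_hasDerivWithin_le (s := Icc (0:ℝ) 1) (C := 1)
      (f := fun s : ℝ => (φ (s • w)).1) (fun s _ => (hx s).hasDerivWithinAt)
      (fun s _ => by rw [Real.norm_eq_abs]; exact hx1 s) (convex_Icc 0 1)
      (left_mem_Icc.2 zero_le_one) (right_mem_Icc.2 zero_le_one)
    rw [hx01] at this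
    simpa using this
  have hksq : (k : ℝ) ^ 2 = 1 := by
    have h1 : |k| ≤ 1 := by exact_mod_cast hk1
    have h2 : |k| = 1 := le_antisymm h1 (Int.one_le_abs hk0)
    have : k ^ 2 = 1 := by rw [← sq_abs, h2]; norm_num
    exact_mod_cast this
  -- the monotone function
  let hh : ℝ → ℝ := fun s => s - k * (φ (s • w)).1
  have hh' : ∀ s, HasDerivAt hh (1 - k * (fderiv ℝ φ (s • w) w).1) s := fun s =>
    (hasDerivAt_id s).sub ((hx s).const_mul (k : ℝ))
  have hmono : Monotone hh := by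
    apply monotone_of_deriv_nonneg (fun s => (hh' s).differentiableAt)
    intro s
    rw [(hh' s).deriv]
    have h1 := hx1 s
    have h2 : |(k : ℝ) * (fderiv ℝ φ (s • w) w).1| ≤ 1 := by
      rw [abs_mul]
      calc _ ≤ 1 * 1 := mul_le_mul hk1 h1 (abs_nonneg _) zero_le_one
        _ = 1 := by norm_num
    linarith [le_abs_self ((k : ℝ) * (fderiv ℝ φ (s • w) w).1)]
  have h01 : hh 0 = hh 1 := by
    simp only [hh]
    linear_combination (k : ℝ) * hx01 + hksq
  have hconst : ∀ s ∈ Icc (0:ℝ) 1, hh s = hh 0 := by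
    intro s hs
    apply le_antisymm
    · rw [h01]; exact hmono hs.2
    · exact hmono hs.1
  have hderiv0 : 1 - k * (fderiv ℝ φ ((0:ℝ) • w) w).1 = 0 := by
    have h1 : HasDerivWithinAt hh (1 - k * (fderiv ℝ φ ((0:ℝ) • w) w).1) (Icc 0 1) 0 :=
      (hh' 0).hasDerivWithinAt
    have h2 : HasDerivWithinAt hh 0 (Icc 0 1) 0 :=
      (hasDerivWithinAt_const (0:ℝ) (Icc (0:ℝ) 1) (hh 0)).congr hconst rfl
    exact (uniqueDiffOn_Icc_zero_one 0 (left_mem_Icc.2 zero_le_one)).eq_deriv _ h1 h2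
  rw [zero_smul] at hderiv0
  -- the linear map
  set A := fderiv ℝ φ 0 with hA
  have hAw1 : (A w).1 = k := by
    linear_combination (-(k : ℝ)) * hderiv0 - (A w).1 * hksq
  have hAw : A w = ((k : ℝ), 0, 0) := by
    have h1 := norm_le_quarticFun (φ 0) (A w)
    have h2 : quarticFun ⟨φ 0, A w⟩ = 1 := by
      have := hspeed 0
      rwa [zero_smul] at this
    rw [h2, hAw1, hksq] at h1
    have h3 : (A w).2.1 = 0 := by nlinarith [sq_nonneg (A w).2.1, sq_nonneg (A w).2.2]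
    have h4 : (A w).2.2 = 0 := by nlinarith [sq_nonneg (A w).2.1, sq_nonneg (A w).2.2]
    ext
    · exact hAw1
    · exact h3
    · exact h4
  have hquartic : ∀ v : V, quartic (Real.pi / 2) (A v) = quartic 0 v := by
    intro v
    have h1 := hF' 0 v
    rw [h0] at h1
    simp only [quarticFun] at h1
    have h2 : √(quartic (Real.pi / 2) (A v)) = √(quartic 0 v) := by
      have := congrArg (fun r => r ^ 2) h1
      simp only [Real.sq_sqrt (Real.sqrt_nonneg _)] at this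
      exact this
    have h3 := congrArg (fun r => r ^ 2) h2
    simp only [Real.sq_sqrt (quartic_nonneg _ _)] at h3
    exact h3
  let e : V := (0, 0, 1)
  refine no_linear (ε := (k : ℝ)) (α := (A e).1) (β := (A e).2.1) (κ := (A e).2.2) hksq ?_
  intro s
  have h1 := hquartic (w + s • e)
  rw [map_add, map_smul, hAw] at h1
  simp only [quartic, Prod.fst_add, Prod.snd_add, Prod.smul_fst, Prod.smul_snd, smul_eq_mul,
    Real.cos_pi_div_two, Real.sin_pi_div_two, Real.cos_zero, Real.sin_zero, w, e] at h1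
  linear_combination h1

end Pool.Agent.H64
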